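import Pool.Agent.Helper5.RO.Sim

/-!
# Growth from a moved center, for actions by similarities
-/

namespace Pool.Agent.Helper5.RO

open Pool.Agent.Helper11.Gap (pth pth_seg_mem' Sym IsX seg seg_succ seg_add seg_congr seg_mem ins
  ins_succ ins_mem ex wt wt_dep wt_inj ins_commutator_mem insU_mem conj_mem' flip' Big sgn
  good_card exists_pattern exists_restrict exists_diff four_corners card_pow_of_free mul_mem_pow
  seg_eq_ins)
open Pool.Agent.Helper46.RO (SimRep)
open Pointwise
open scoped commutatorElement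

variable {G : Type*} [Group G] {X : Type*}
variable {Γ₀ : Type*} [LinearOrderedCommGroupWithZero Γ₀]

theorem conv_act (R : SimRep (commutator G) X Γ₀) (ℓ : ℕ → G) (h z : G) (i s : ℕ) (w : X) :
    (R.at' ((pth ℓ i)⁻¹ * h)).act ((pth ℓ s)⁻¹ * z * pth ℓ s) w =
      (R.at' (pth ℓ s * (pth ℓ i)⁻¹ * h)).act z w := by
  rw [SimRep.at'_conj_act, mul_assoc]

theorem conv_μ (R : SimRep (commutator G) X Γ₀) (ℓ : ℕ → G) (h z : G) (i s : ℕ) :
    (R.at' ((pth ℓ i)⁻¹ * h)).μ ((pth ℓ s)⁻¹ * z * pth ℓ s) =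
      (R.at' (pth ℓ s * (pth ℓ i)⁻¹ * h)).μ z := by
  rw [SimRep.at'_conj_μ, mul_assoc]

theorem ins_μ (R : SimRep (commutator G) X Γ₀) {ℓ : ℕ → G} {z : G}
    (hz : z ∈ commutator G) (s : ℕ) (f : ℕ → ℤ) (n : ℕ) :
    R.μ (ins ℓ s (fun t => z ^ f t) n) =
      ∏ t ∈ Finset.range n, R.μ ((pth ℓ (t + s))⁻¹ * z * pth ℓ (t + s)) ^ f t := by
  induction n with
  | zero => simp [ins, R.μ_one]
  | succ n ih =>
    rw [ins_succ, Finset.prod_range_succ, ← ih]
    have e : (pth ℓ (n + s))⁻¹ * z ^ f n * pth ℓ (n + s) =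
        ((pth ℓ (n + s))⁻¹ * z * pth ℓ (n + s)) ^ f n := by
      have := conj_zpow (i := f n) (a := (pth ℓ (n + s))⁻¹) (b := z)
      rw [inv_inv] at this
      exact this.symm
    have hm := conj_mem' hz (pth ℓ (n + s))
    rw [e, R.μ_mul _ (Subgroup.zpow_mem _ hm _) _ (ins_commutator_mem hz s f n),
      R.μ_zpow hm, mul_comm]

theorem ins_fix (R : SimRep (commutator G) X Γ₀) {ℓ : ℕ → G} {z : G}
    (hz : z ∈ commutator G) (s : ℕ) (f : ℕ → ℤ) (n : ℕ) (o : X)
    (h : ∀ t < n, R.act ((pth ℓ (t + s))⁻¹ * z * pth ℓ (t + s)) o = o) :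
    R.act (ins ℓ s (fun t => z ^ f t) n) o = o := by
  induction n with
  | zero => exact R.act_one o
  | succ n ih =>
    rw [ins_succ]
    have e : (pth ℓ (n + s))⁻¹ * z ^ f n * pth ℓ (n + s) =
        ((pth ℓ (n + s))⁻¹ * z * pth ℓ (n + s)) ^ f n := by
      have := conj_zpow (i := f n) (a := (pth ℓ (n + s))⁻¹) (b := z)
      rw [inv_inv] at this
      exact this.symm
    have hm := conj_mem' hz (pth ℓ (n + s))
    rw [e]
    exact R.fix_mul (Subgroup.zpow_mem _ hm _) (ins_commutator_mem hz s f n)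
      (R.fix_zpow hm (h n (Nat.lt_succ_self n)) _) (ih (fun t ht => h t (by omega)))

theorem fix_seg {N : Subgroup G} (R : SimRep N X Γ₀) {Y : ℕ → G}
    (hY : ∀ t, Y t ∈ N) (J : Finset ℕ) (a n : ℕ) (o : X)
    (h : ∀ t, a ≤ t → t < a + n → R.act (Y t) o = o) :
    R.act (seg Y J a n) o = o := by
  induction n with
  | zero => simp [seg, R.act_one]
  | succ n ih =>
    have ih' := ih (fun t h1 h2 => h t h1 (by omega))
    rw [seg_succ]
    have hs := seg_mem hY J a n
    split_ifs with hJ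
    · rw [R.act_mul (hY _) hs, ih']
      exact h _ (Nat.le_add_right _ _) (by omega)
    · rw [one_mul, ih']

/-- Digits such that the product moves `o` at every place, chosen from the last one on. -/
theorem exists_digits {N : Subgroup G} (D : ℕ) (R : ℕ → SimRep N X Γ₀) (o : X) {Y : ℕ → G}
    (hY : ∀ t, Y t ∈ N) (hb : ∀ i < D, ∀ t < i, (R i).act (Y t) o = o)
    (hc : ∀ i < D, (R i).act (Y i) o ≠ o) :
    ∃ J : Finset ℕ, ∀ i < D, (R i).act (seg Y J 0 D) o ≠ o := by
  classical
  have key : ∀ k ≤ D, ∃ J : Finset ℕ, ∀ i, D - k ≤ i → i < D →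
      (R i).act (seg Y J i (D - i)) o ≠ o := by
    intro k
    induction k with
    | zero =>
      intro _
      exact ⟨∅, fun i h1 h2 => absurd h1 (by omega)⟩
    | succ k ih =>
      intro hk
      obtain ⟨J, hJ⟩ := ih (by omega)
      obtain ⟨i, hi⟩ : ∃ i, i = D - (k + 1) := ⟨_, rfl⟩
      have hiD : i < D := by omega
      have hsplit : ∀ J : Finset ℕ, (R i).act (seg Y J i (D - i)) o =
          (R i).act (seg Y J (i + 1) (D - (i + 1))) (if i ∈ J then (R i).act (Y i) o else o) := by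
        intro J
        have e1 : D - i = 1 + (D - (i + 1)) := by omega
        rw [e1, seg_add, (R i).act_mul (seg_mem hY J _ _) (seg_mem hY J _ _)]
        congr 1
        rw [show (1 : ℕ) = 0 + 1 from rfl, seg_succ, seg, mul_one, add_zero]
        split_ifs with h1
        · rfl
        · exact (R i).act_one o
      by_cases hmv : (R i).act (seg Y J i (D - i)) o = o
      · refine ⟨symmDiff J {i}, ?_⟩
        intro i' h1 h2
        have htog : ∀ t, i + 1 ≤ t → (t ∈ symmDiff J {i} ↔ t ∈ J) := by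
          intro t ht
          have hti : t ≠ i := by omega
          rw [Finset.mem_symmDiff]
          simp [hti]
        rcases Nat.eq_or_lt_of_le (show i ≤ i' by omega) with h3 | h3
        · rw [← h3, hsplit, seg_congr Y (i + 1) _ htog]
          rw [hsplit] at hmv
          intro hcon
          have hinj := (R i).act_injective (seg_mem hY J (i + 1) (D - (i + 1)))
          have h4 := hinj (hcon.trans hmv.symm)
          by_cases hiJ : i ∈ J
          · have h5 : ¬ (i ∈ symmDiff J {i}) := by rw [Finset.mem_symmDiff]; simp [hiJ]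
            rw [if_pos hiJ, if_neg h5] at h4
            exact hc i hiD h4.symm
          · have h5 : i ∈ symmDiff J {i} := by rw [Finset.mem_symmDiff]; simp [hiJ]
            rw [if_neg hiJ, if_pos h5] at h4
            exact hc i hiD h4
        · rw [seg_congr Y i' _ (fun t ht => htog t (by omega))]
          exact hJ i' (by omega) h2
      · refine ⟨J, ?_⟩
        intro i' h1 h2
        rcases Nat.eq_or_lt_of_le (show i ≤ i' by omega) with h3 | h3
        · rw [← h3]; exact hmv
        · exact hJ i' (by omega) h2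
  obtain ⟨J, hJ⟩ := key D le_rfl
  refine ⟨J, ?_⟩
  intro i hi
  have e1 : D = i + (D - i) := by omega
  have h1 := hJ i (by omega) hi
  have h2 : seg Y J 0 D = seg Y J i (D - i) * seg Y J 0 i := by
    conv_lhs => rw [e1]
    rw [seg_add, zero_add]
  rw [h2, (R i).act_mul (seg_mem hY J _ _) (seg_mem hY J _ _),
    fix_seg (R i) hY J 0 i o (fun t _ h => hb i hi t (by omega))]
  exact h1

/-- The numerical estimate. -/
theorem num_aux (D : ℕ) (n : ℚ) {a c : ℚ} (ha : 0 ≤ a) (hn : a ^ D ≤ n) (hnum : c ^ 85 ≤ a ^ 164)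
    (hc : 0 ≤ c) : c ^ (340 * D) ≤ (n * n) ^ 328 := by
  have h1 : c ^ (340 * D) ≤ a ^ (656 * D) := by
    have h2 : (c ^ 85) ^ (4 * D) ≤ (a ^ 164) ^ (4 * D) :=
      pow_le_pow_left₀ (pow_nonneg hc _) hnum _
    rw [← pow_mul, ← pow_mul] at h2
    have e1 : 85 * (4 * D) = 340 * D := by ring
    have e2 : 164 * (4 * D) = 656 * D := by ring
    rwa [e1, e2] at h2
  have h3 : (a ^ D * a ^ D) ^ 328 ≤ (n * n) ^ 328 :=
    pow_le_pow_left₀ (by positivity) (mul_le_mul hn hn (by positivity)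
      ((pow_nonneg ha D).trans hn)) _
  have e3 : (a ^ D * a ^ D) ^ 328 = a ^ (656 * D) := by
    rw [← pow_add, ← pow_mul]
    congr 1
    ring
  rw [e3] at h3
  exact h1.trans h3

/-- The main step. -/
theorem main [DecidableEq G] {T : Finset G} (hT : Sym T) (R : SimRep (commutator G) X Γ₀)
    (d : ℕ) (hfix : FixProp T R d) (h x y : G) (hx : IsX T x) (hy : IsX T y)
    (hh : Hyp R h x) {ℓ : ℕ → G} (hℓ : ∀ t, ℓ t ∈ T)
    (hmove : ∀ i < max d 1, (R.at' (pth ℓ (i + d) * (pth ℓ i)⁻¹ * h)).act y ((R.at' h).ctr x) ≠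
      (R.at' h).ctr x) : Big T := by
  classical
  set D := max d 1 with hD
  have hD1 : 1 ≤ D := le_max_right _ _
  have hdD : d ≤ D := le_max_left _ _
  have hD2 : 2 ≤ D → d = D := by intro h2; omega
  set o := (R.at' h).ctr x with ho
  set Ri : ℕ → SimRep (commutator G) X Γ₀ := fun i => R.at' ((pth ℓ i)⁻¹ * h) with hRi
  set Y : ℕ → G := fun t => (pth ℓ (t + d))⁻¹ * y * pth ℓ (t + d) with hY
  have hYN : ∀ t, Y t ∈ commutator G := fun t => conj_mem' hy.mem _
  -- the inserted elements fix `o`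
  have hXfix : ∀ i < D, ∀ t < D, (Ri i).act ((pth ℓ (t + 0))⁻¹ * x * pth ℓ (t + 0)) o = o := by
    intro i hi t ht
    rw [hRi, add_zero]
    simp only
    rw [conv_act]
    rcases eq_or_ne t i with rfl | hti
    · rw [mul_inv_cancel, one_mul]
      exact (R.at' h).act_ctr hx.mem hh
    · have hd : d = D := hD2 (by omega)
      exact hfix h x x _ (D - 1) hx hx hh (pth_seg_mem' hT hℓ (by omega) (by omega)) (by omega)
  -- digits moving `o` at all places
  obtain ⟨J, hJ⟩ := exists_digits D Ri o hYN (by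
      intro i hi t ht
      have hd : d = D := hD2 (by omega)
      rw [hRi, hY]
      simp only
      rw [conv_act]
      exact hfix h x y _ (D - 1) hx hy hh (pth_seg_mem' hT hℓ (by omega) (by omega))
        (by omega)) (by
      intro i hi
      rw [hRi, hY]
      simp only
      rw [conv_act]
      exact hmove i hi)
  set b := seg Y J 0 D with hb
  have hbN : b ∈ commutator G := seg_mem hYN J 0 D
  have hblen : b ∈ T ^ (8 * D) := by
    rw [hb, hY, seg_eq_ins]
    have := ins_mem hT hℓ d (z := fun t => if t ∈ J then y else 1) (m := 4) (by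
      intro t
      split_ifs
      · exact hy.mem_pow hT
      · exact hT.one_mem_pow 4) D
    exact hT.mono (by omega) this
  -- weights
  set C : ℕ → ℕ → Γ₀ := fun i t => (R.at' (pth ℓ t * (pth ℓ i)⁻¹ * h)).μ x with hC
  have hC0 : ∀ i t, C i t ≠ 0 := fun i t => (R.at' _).μ_ne_zero hx.mem
  have hC1 : ∀ i < D, C i i ≠ 1 := by
    intro i _
    rw [hC]
    simp only
    rw [mul_inv_cancel, one_mul]
    exact hh
  have hCtri : ∀ i t, i < t → t < D → C i t = 1 := by
    intro i t hit htD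
    have hd : d = D := hD2 (by omega)
    by_contra hcon
    have hyp1 : Hyp R (pth ℓ t * (pth ℓ i)⁻¹ * h) x := hcon
    have h1 := hfix h x x (pth ℓ t * (pth ℓ i)⁻¹) (d - 1) hx hx hh
      (pth_seg_mem' hT hℓ (by omega) (by omega)) (by omega)
    have h2 := (R.at' (pth ℓ t * (pth ℓ i)⁻¹ * h)).eq_ctr hx.mem hyp1 h1
    have e1 : pth ℓ (i + d) * (pth ℓ t)⁻¹ * (pth ℓ t * (pth ℓ i)⁻¹ * h) =
        pth ℓ (i + d) * (pth ℓ i)⁻¹ * h := by group
    have h3 := hfix (pth ℓ t * (pth ℓ i)⁻¹ * h) x y (pth ℓ (i + d) * (pth ℓ t)⁻¹)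
      (d - 1) hx hy hyp1 (pth_seg_mem' hT hℓ (by omega) (by omega)) (by omega)
    rw [e1, ← h2] at h3
    exact hmove i (by omega) h3
  -- a large family with constant signs
  have hdep := wt_dep C D hCtri
  have hinj := wt_inj C D hC0 hC1 hCtri
  obtain ⟨σ, E₀, hE₀, hσ⟩ := exists_pattern (1 : Γ₀) D (fun ε i => wt C D ε i) (by
    convert good_card 80 (1 : Γ₀) D (fun ε i => wt C D ε i) hdep hinj)
  obtain ⟨s, s', hss⟩ := four_corners D σ σ
  set I := Finset.univ.filter (fun i => σ i = s ∧ σ i = s') with hI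
  obtain ⟨F, hFsub, hFcard, hFI⟩ := exists_restrict D I hss E₀ hE₀
  have hFs : ∀ ε ∈ F, ∀ i ∈ I, sgn s 1 (wt C D ε i) := by
    intro ε hε i hi
    have := hσ ε (hFsub hε) i
    rwa [(Finset.mem_filter.1 hi).2.1] at this
  have hFd : ∀ ε ∈ F, ∀ ε' ∈ F, ε ≠ ε' → ∃ i ∈ I, wt C D ε i ≠ wt C D ε' i := by
    intro ε hε ε' hε' hne
    obtain ⟨i, h1, h2⟩ := exists_diff (fun ε i => wt C D ε i) hinj ε ε' hne
    exact ⟨i, hFI ε hε ε' hε' i h1, h2⟩
  -- the elements
  set U : (Fin D → Fin 81) → G := fun ε => ins ℓ 0 (fun t => x ^ ex ε t) D with hU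
  have hUN : ∀ ε, U ε ∈ commutator G := fun ε => ins_commutator_mem hx.mem 0 _ D
  have hUv : ∀ ε, ∀ i : Fin D, (Ri i).μ (U ε) = wt C D ε i := by
    intro ε i
    rw [hU]
    simp only
    rw [ins_μ (Ri i) hx.mem, wt]
    apply Finset.prod_congr rfl
    intro t _
    rw [hRi, hC, add_zero]
    simp only
    rw [conv_μ]
  have hUfix : ∀ ε, ∀ i : Fin D, (Ri i).act (U ε) o = o := fun ε i =>
    ins_fix (Ri i) hx.mem 0 _ D o (fun t ht => hXfix i i.isLt t ht)
  have hUlen : ∀ ε, U ε ∈ T ^ (162 * D) := by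
    intro ε
    exact insU_mem hT hx hℓ 0 ε (162 * D) 40 le_rfl (by omega)
  -- general facts on `flip'`
  have flipN : ∀ (b : Bool) (g : G), g ∈ commutator G → flip' b g ∈ commutator G := by
    intro b g hg
    cases b
    · exact Subgroup.inv_mem _ hg
    · exact hg
  have fliplen : ∀ (b : Bool) (g : G) (m : ℕ), g ∈ T ^ m → flip' b g ∈ T ^ m := by
    intro b g m hg
    cases b
    · exact hT.inv_mem_pow hg
    · exact hg
  have flipfix : ∀ (b : Bool) (g : G) (i : Fin D) (z : X), g ∈ commutator G →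
      (Ri i).act g z = z → (Ri i).act (flip' b g) z = z := by
    intro b g i z hg hz
    cases b
    · exact (Ri i).fix_inv hg hz
    · exact hz
  have flipv : ∀ (b : Bool) (g : G) (i : Fin D), g ∈ commutator G →
      sgn b 1 ((Ri i).μ g) → (Ri i).μ (flip' b g) < 1 := by
    intro b g i hg hz
    cases b
    · have hz' : 1 < (Ri i).μ g := by simpa [sgn] using hz
      change (Ri i).μ g⁻¹ < 1
      rw [(Ri i).μ_inv hg]
      exact inv_lt_one_of_one_lt₀ hz'
    · have hz' : (Ri i).μ g < 1 := by simpa [sgn] using hz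
      exact hz'
  have flipne : ∀ (b : Bool) (g g' : G) (i : Fin D), g ∈ commutator G → g' ∈ commutator G →
      (Ri i).μ g ≠ (Ri i).μ g' → (Ri i).μ (flip' b g) ≠ (Ri i).μ (flip' b g') := by
    intro b g g' i hg hg' hz
    cases b
    · change (Ri i).μ g⁻¹ ≠ (Ri i).μ g'⁻¹
      rw [(Ri i).μ_inv hg, (Ri i).μ_inv hg']
      exact fun hc => hz (inv_injective hc)
    · exact hz
  -- conjugation by `b`
  have conjμ : ∀ (i : Fin D) (g : G), g ∈ commutator G →
      (Ri i).μ (b * g * b⁻¹) = (Ri i).μ g := by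
    intro i g hg
    have := (Ri i).μ_conj hg (Subgroup.inv_mem _ hbN)
    rwa [inv_inv] at this
  have conjN : ∀ g : G, g ∈ commutator G → b * g * b⁻¹ ∈ commutator G := fun g hg =>
    Subgroup.mul_mem _ (Subgroup.mul_mem _ hbN hg) (Subgroup.inv_mem _ hbN)
  have conjfix : ∀ (i : Fin D) (g : G), g ∈ commutator G → (Ri i).act g o = o →
      (Ri i).act (b * g * b⁻¹) ((Ri i).act b o) = (Ri i).act b o := by
    intro i g hg hgo
    rw [(Ri i).act_mul (Subgroup.mul_mem _ hbN hg) (Subgroup.inv_mem _ hbN),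
      (Ri i).act_inv_act hbN, (Ri i).act_mul hbN hg, hgo]
  have hfree := caseTwo (N := commutator G) (I : Set (Fin D)) (fun i => Ri i) (fun _ => o)
    (fun i => (Ri i).act b o) (fun i _ hcon => hJ i i.isLt hcon.symm)
    (fun ε => flip' s (U ε)) (fun ε => b * flip' s (U ε) * b⁻¹)
    (fun ε => flipN s _ (hUN ε)) (fun ε => conjN _ (flipN s _ (hUN ε)))
    (F : Set (Fin D → Fin 81)) (F : Set (Fin D → Fin 81))
    (by
      intro i hi ε hε
      refine ⟨flipfix s _ i o (hUN ε) (hUfix ε i), flipv s _ i (hUN ε) ?_⟩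
      rw [hUv]
      exact hFs ε hε i hi)
    (by
      intro i hi ε hε
      refine ⟨conjfix i _ (flipN s _ (hUN ε)) (flipfix s _ i o (hUN ε) (hUfix ε i)), ?_⟩
      rw [conjμ i _ (flipN s _ (hUN ε))]
      apply flipv s _ i (hUN ε)
      rw [hUv]
      exact hFs ε hε i hi)
    (by
      intro ε hε ε' hε' hne2
      obtain ⟨i, hi, hw⟩ := hFd ε hε ε' hε' hne2
      refine ⟨i, hi, flipne s _ _ i (hUN ε) (hUN ε') ?_⟩
      rw [hUv, hUv]
      exact hw)
    (by
      intro ε hε ε' hε' hne2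
      obtain ⟨i, hi, hw⟩ := hFd ε hε ε' hε' hne2
      refine ⟨i, hi, ?_⟩
      rw [conjμ i _ (flipN s _ (hUN ε)), conjμ i _ (flipN s _ (hUN ε'))]
      apply flipne s _ _ i (hUN ε) (hUN ε')
      rw [hUv, hUv]
      exact hw)
  have hgrow := card_pow_of_free (T := T)
    (fun p : (Fin D → Fin 81) × (Fin D → Fin 81) =>
      flip' s (U p.1) * (b * flip' s (U p.2) * b⁻¹))
    (F ×ˢ F) (340 * D) (by
      intro p _
      have h1 := fliplen s _ _ (hUlen p.1)
      have h2 := fliplen s _ _ (hUlen p.2)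
      have := mul_mem_pow h1 (mul_mem_pow (mul_mem_pow hblen h2) (hT.inv_mem_pow hblen))
      exact hT.mono (by omega) this) (by
      intro L L' hL hL' hlen heq
      refine hfree L L' ?_ ?_ hlen heq
      · intro p hp
        have := hL p hp
        rwa [Finset.mem_product] at this
      · intro p hp
        have := hL' p hp
        rwa [Finset.mem_product] at this)
  refine ⟨340 * D, (F ×ˢ F).card, by omega, hgrow, ?_⟩
  rw [Finset.card_product]
  have hnum : ((2 : ℚ)) ^ 85 ≤ ((40 : ℚ) / 27) ^ 164 := by norm_num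
  have h1 := num_aux D (F.card : ℚ) (by positivity) hFcard hnum (by positivity)
  exact_mod_cast h1

theorem swap_step_one [DecidableEq G] {T : Finset G} (hT : Sym T)
    (R : SimRep (commutator G) X Γ₀) (d : ℕ)
    (hfix : FixProp T R d) (h x y : G) (hx : IsX T x) (hy : IsX T y) (hh : Hyp R h x)
    (a₂ : ℕ) (p : G) (q : G) (hq : q ∈ T ^ a₂) (a : G) (ha : a ∈ T) (b : G)
    (hb : b ∈ T) (hlen : a₂ < d)
    (hQ : (R.at' (p * (a * b) * q * h)).act y ((R.at' h).ctr x) ≠ (R.at' h).ctr x) :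
    (R.at' (p * (b * a) * q * h)).act y ((R.at' h).ctr x) ≠ (R.at' h).ctr x := by
  have hcX : IsX T ⁅b⁻¹, a⁻¹⁆ := ⟨_, hT.inv b hb, _, hT.inv a ha, rfl⟩
  have ecR : p * (b * a) * q * h =
      (p * (a * b) * q * h) * ((q * h)⁻¹ * ⁅b⁻¹, a⁻¹⁆ * (q * h)) := by
    rw [commutatorElement_def]; group
  have hκN : (q * h)⁻¹ * ⁅b⁻¹, a⁻¹⁆ * (q * h) ∈ commutator G := conj_mem' hcX.mem _
  have hfixo := hfix h x _ q a₂ hx hcX hh hq hlen
  rw [SimRep.at'_act] at hfixo
  intro hcon
  rw [ecR, R.at'_mul_fix_iff hκN hy.mem hfixo] at hcon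
  exact hQ hcon

/-- An action of the derived subgroup by similarities with a hyperbolic element and without global
fixed point makes the group large, with an absolute constant. -/
theorem dynamics [DecidableEq G] {T : Finset G} (hT : Sym T)
    (hgen : Subgroup.closure (T : Set G) = ⊤) (R : SimRep (commutator G) X Γ₀)
    (H1 : ∃ n ∈ commutator G, R.μ n ≠ 1)
    (H2 : ∀ z : X, ∃ n ∈ commutator G, R.act n z ≠ z) : Big T := by
  classical
  obtain ⟨d, hfix, h, x, y, g, hx, hy, hh, hg, hmove⟩ := exists_min T hT hgen R H1 H2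
  obtain ⟨ℓ, hℓ, hper, hpth⟩ := Pool.Agent.Helper11.Gap.exists_pth hT d g hg
  refine main hT R d hfix h x y hx hy hh hℓ ?_
  intro i hi
  rcases Nat.eq_zero_or_pos d with hd0 | hd0
  · have hi0 : i = 0 := by omega
    subst hi0
    subst hd0
    have e : pth ℓ (0 + 0) * (pth ℓ 0)⁻¹ * h = g * h := by
      rw [← hpth]; simp [pth]
    rw [e]
    exact hmove
  · have hrot := Pool.Agent.Helper11.Gap.rotate_path hT
      (fun w => (R.at' (w * h)).act y ((R.at' h).ctr x) ≠ (R.at' h).ctr x) d hd0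
      (by
        intro a₁ a₂ p _ q hq a ha b hb hlen
        constructor
        · exact swap_step_one hT R d hfix h x y hx hy hh a₂ p q hq a ha b hb (by omega)
        · exact swap_step_one hT R d hfix h x y hx hy hh a₂ p q hq b hb a ha (by omega))
      hℓ hper i
    rw [hpth] at hrot
    exact hrot.2 hmove

end Pool.Agent.Helper5.RO
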