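import Pool.Agent.Helper5.RO.Goals
import Pool.Agent.Helper5.DP.Dir

/-!
# Project RO: the goal `DIR`
-/

namespace Pool.Agent.Helper5.RO

theorem gDIR : G_DIR := by
  intro n B hB a A hA hle hk
  have ha : a ≠ 0 := by
    rintro rfl
    obtain ⟨k, hk⟩ := hk
    simp at hk
    omega
  obtain ⟨q, c, A', hA', hle', ⟨k', hk'⟩, hq1, hq2, hc0, hcq, hc⟩ := DP.dir2 n B hB a ha
  have hAA : A' = A := by
    obtain ⟨k, hk⟩ := hk
    have h1 := hle' k
    have h2 := hle k'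
    rw [hk] at h1
    rw [hk'] at h2
    exact_mod_cast le_antisymm h2 h1
  subst hAA
  have hq0 : (0 : ℝ) < q := by exact_mod_cast hq1
  have hB0 : (0 : ℝ) < B := by
    have : (2 : ℝ) ≤ B := by exact_mod_cast hB
    linarith
  refine ⟨c, round ((A' : ℝ) / q), q, hc0, hq1, hq2, hcq, fun i => ?_⟩
  have h1 := hc i
  have h2 : (a i : ℝ) - (round ((A' : ℝ) / q) : ℤ) * c i =
      ((A' : ℝ) / q - round ((A' : ℝ) / q)) * c i + ((q : ℝ) * a i - A' * c i) / q := by
    field_simp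
    ring
  have h3 : |(A' : ℝ) / q - round ((A' : ℝ) / q)| ≤ 1 / 2 := abs_sub_round _
  have h4 : |(c i : ℝ)| ≤ q := by exact_mod_cast hcq i
  rw [h2]
  refine (abs_add_le _ _).trans (add_le_add ?_ ?_)
  · rw [abs_mul]
    nlinarith [abs_nonneg (c i : ℝ), abs_nonneg ((A' : ℝ) / q - round ((A' : ℝ) / q))]
  · rw [abs_div, abs_of_pos hq0, div_le_iff₀ hq0]
    refine h1.trans (le_of_eq ?_)
    field_simp

end Pool.Agent.Helper5.RO
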