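import Pool.Agent.Helper29.GC.Loc
import Pool.Agent.Helper29.BL.PAR

/-!
# Project RO (MP_a41896_nt): definitions

Vojta's inequality (`D = 0`) at all points of `Eⁿ` whose coordinates span a group of rank `≤ 1`, for
arbitrary centres of codimension `≥ 2`.  The paper proof is in `PAPER.md` of this folder.
-/

namespace Pool.Agent.Helper5.RO

open WeierstrassCurve Height Height.AdmissibleAbsValues MvPolynomial
open Pool.Agent.Helper29.BL Pool.Agent.Helper29.GC

noncomputable section

/-! ## Homogeneous values -/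

section hom

variable {R S : Type} [CommRing R] [CommRing S]

/-- `Σ_{k ≤ D} g_k X^k Z^(D-k)` at `y = (X, Z)`. -/
def hev1 (D : ℕ) (g : ℕ → S) (y : Fin 2 → S) : S :=
  ∑ k ∈ Finset.range (D + 1), g k * y 0 ^ k * y 1 ^ (D - k)

/-- The value at `y = ((X_i, Z_i))_i` of the multihomogenization, of degree `D` in every pair
`(X_i, Z_i)`, of the polynomial `f`: `Σ_m f_m ∏_i X_i^(m_i) Z_i^(D-m_i)`. -/
def hev (φ : R →+* S) {n : ℕ} (D : ℕ) (f : MvPolynomial (Fin n) R) (y : Fin n → Fin 2 → S) : S :=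
  ∑ m ∈ f.support, φ (coeff m f) * ∏ i, (y i 0 ^ m i * y i 1 ^ (D - m i))

/-- The symmetric product `(X X', X Z' + Z X', Z Z')` of two pairs
(`P.sym2x Q = sy P.xRep Q.xRep`, by definition). -/
def sy (a b : Fin 2 → S) : Fin 3 → S := ![a 0 * b 0, a 0 * b 1 + a 1 * b 0, a 1 * b 1]

/-- Power sums: `pw q d m = α^m + β^m` if `α + β = q`, `α β = d`. -/
def pw (q d : S) : ℕ → S
  | 0 => 2
  | 1 => q
  | (m + 2) => q * pw q d (m + 1) - d * pw q d m

/-- The norm form of `Σ g_k X^k Z^(D-k)`: a form of degree `D` in `(p, q, r)`. -/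
def nrm (D : ℕ) (g : ℕ → S) (p q r : S) : S :=
  ∑ k ∈ Finset.range (D + 1), g k ^ 2 * p ^ k * r ^ (D - k) +
    ∑ l ∈ Finset.range (D + 1), ∑ k ∈ Finset.range l,
      g k * g l * p ^ k * r ^ (D - l) * pw q (p * r) (l - k)

/-- `addSubMap` of the curve `W` over `R`, in the ring `S`. -/
def asm (φ : R →+* S) (W : WeierstrassCurve R) (v : Fin 3 → S) : Fin 3 → S :=
  ![v 0 ^ 2 - φ W.b₄ * v 0 * v 2 - φ W.b₆ * v 1 * v 2 - φ W.b₈ * v 2 ^ 2,
    2 * v 1 * v 0 + φ W.b₂ * v 0 * v 2 + φ W.b₄ * v 1 * v 2 + φ W.b₆ * v 2 ^ 2,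
    v 1 ^ 2 - 4 * v 0 * v 2]

end hom

/-- `N` is a norm form of `f` (multidegree `(D,..,D)`): a form of degree `2^(n-1) D` in each triple of
variables, whose value at the symmetric products of `y_i` and `y'_i` is the product over all choices
of the values of (the multihomogenization of) `f`. -/
structure NForm {R : Type} [CommRing R] {n : ℕ} (D : ℕ) (f : MvPolynomial (Fin n) R)
    (N : MvPolynomial (Fin n × Fin 3) R) : Prop where
  hom : ∀ m ∈ N.support, ∀ i, m (i, 0) + m (i, 1) + m (i, 2) = 2 ^ (n - 1) * D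
  val : ∀ (S : Type) [CommRing S] (φ : R →+* S) (y y' : Fin n → Fin 2 → S),
    eval₂ φ (fun p => sy (y p.1) (y' p.1) p.2) N =
      ∏ A : Finset (Fin n), hev φ D f (fun i => if i ∈ A then y i else y' i)

/-- `(A, B)` are the polynomials of the multiplication by `m`: `x(mP) = A(x(P)) / B(x(P))` (in the
projective sense), `A` monic of degree `m²`, `deg B < m²`; over all extension fields. -/
structure MulPol {K : Type} [Field K] (W : Affine K) (m : ℕ) (A B : Polynomial K) : Prop where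
  monic : A.Monic
  degA : A.natDegree = m ^ 2
  degB : B.degree < (m ^ 2 : ℕ)
  rep : ∀ (F : Type) [Field F] [DecidableEq F] (φ : K →+* F) (W' : Affine F), W' = W.map φ →
    ∀ P : W'.Point, P ≠ 0 → ∃ σ : F, σ ≠ 0 ∧ A.eval₂ φ (xc P) = σ * (m • P).xRep 0 ∧
      B.eval₂ φ (xc P) = σ * (m • P).xRep 1

/-- The triple of the translate: `asm` at the symmetric product of `(A(t), B(t))` and `(ξ_i, 1)`.
The variable `0` is `t`, the variable `i+1` is `ξ_i`. -/
def trp {K : Type} [Field K] (W : WeierstrassCurve K) {n : ℕ} (A B : Fin n → Polynomial K)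
    (i : Fin n) : Fin 3 → MvPolynomial (Fin (n + 1)) K :=
  asm C W (sy ![(A i).eval₂ C (X 0), (B i).eval₂ C (X 0)] ![X i.succ, 1])

/-- The polynomial `H(t, ξ)` of the translates: substitute the triples in the norm form. -/
def HH {K : Type} [Field K] (W : WeierstrassCurve K) {n : ℕ} (A B : Fin n → Polynomial K)
    (N : MvPolynomial (Fin n × Fin 3) K) : MvPolynomial (Fin (n + 1)) K :=
  eval₂ C (fun p => trp W A B p.1 p.2) N

/-- `H` as a polynomial in `t` with coefficients in `K[ξ]`. -/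
def HP {K : Type} [Field K] (W : WeierstrassCurve K) {n : ℕ} (A B : Fin n → Polynomial K)
    (N : MvPolynomial (Fin n × Fin 3) K) : Polynomial (MvPolynomial (Fin n) K) :=
  finSuccEquiv K n (HH W A B N)

/-- `2^n D Σ c_i²`, the degree of `H` in `t`. -/
def aa (n D : ℕ) (c : Fin n → ℕ) : ℕ := 2 ^ n * D * ∑ i, c i ^ 2

/-- The linear combination `Σ μ_j f_j`. -/
def lc {K : Type} [Field K] {n : ℕ} {ι : Type} [Fintype ι] (f : ι → MvPolynomial (Fin n) K)
    (μ : ι → K) : MvPolynomial (Fin n) K := ∑ j, C (μ j) * f j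

/-- The coordinates span a group of rank at most one: any two of them are linearly dependent. -/
def RankLeOne {G : Type} [AddCommGroup G] {n : ℕ} (z : Fin n → G) : Prop :=
  ∀ i j, ∃ a b : ℤ, (a ≠ 0 ∨ b ≠ 0) ∧ a • z i = b • z j

end

end Pool.Agent.Helper5.RO
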