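import Pool.Agent.Helper5.RO.Defs

/-!
# Project RO (MP_a41896_nt), goals

Every `def G_NAME : Prop` is a packet; the docstring contains the proof.  A packet may take other goals
as hypotheses.
-/

namespace Pool.Agent.Helper5.RO

open WeierstrassCurve Height Height.AdmissibleAbsValues MvPolynomial
open Pool.Agent.Helper29.BL Pool.Agent.Helper29.GC

noncomputable section

/-! ## Block N: norm forms -/

/-- NRM. (1) By induction `pw (α+β) (αβ) m = α^m + β^m`. With `a = (a₀,a₁)`, `b = (b₀,b₁)`,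
`α = a₀b₁`, `β = a₁b₀`, `q = α+β`, `p r = (a₀b₀)(a₁b₁) = αβ`:
`hev1 D g a * hev1 D g b = Σ_{k,l} g_k g_l a₀^k a₁^(D-k) b₀^l b₁^(D-l)`. The terms `k = l` are
`g_k² p^k r^(D-k)`; the terms `(k,l)` and `(l,k)`, `k < l ≤ D`, have the sum
`g_k g_l (a₀b₀)^k (a₁b₁)^(D-l) ((a₁b₀)^(l-k) + (a₀b₁)^(l-k))`.
(2) compatibility with ring homomorphisms (clear). -/
def G_NRM : Prop :=
  (∀ (S : Type) [CommRing S] (D : ℕ) (g : ℕ → S) (a b : Fin 2 → S),
    nrm D g (a 0 * b 0) (a 0 * b 1 + a 1 * b 0) (a 1 * b 1) = hev1 D g a * hev1 D g b) ∧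
  (∀ (R S : Type) [CommRing R] [CommRing S] (φ : R →+* S) (D : ℕ) (g : ℕ → R) (p q r : R),
    φ (nrm D g p q r) = nrm D (fun k => φ (g k)) (φ p) (φ q) (φ r))

/-- HM. Homogenization is multiplicative: if the `F_i`, `i ∈ s`, have degree `≤ D` then
`Σ_k (∏F_i)_k X^k Z^(|s| D - k) = ∏_i Σ_k (F_i)_k X^k Z^(D-k)`. (Induction on `s`; two factors:
`Σ_{k ≤ D+D'} Σ_{i+j=k} f_i g_j X^(i+j) Z^(D+D'-i-j)`, where only `i ≤ D`, `j ≤ D'` contribute.) -/
def G_HM : Prop := ∀ (S : Type) [CommRing S] (α : Type) (s : Finset α) (D : ℕ)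
  (F : α → Polynomial S), (∀ i ∈ s, (F i).natDegree ≤ D) → ∀ a : Fin 2 → S,
  hev1 (s.card * D) (fun k => (∏ i ∈ s, F i).coeff k) a = ∏ i ∈ s, hev1 D (fun k => (F i).coeff k) a

/-- `f` as a polynomial in the variables `1, .., n` over `R[X]`, `X` = the variable `0`. -/
def swp {R : Type} [CommRing R] {n : ℕ} (f : MvPolynomial (Fin (n + 1)) R) :
    MvPolynomial (Fin n) (Polynomial R) :=
  eval₂ ((C : Polynomial R →+* MvPolynomial (Fin n) (Polynomial R)).comp Polynomial.C)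
    (Fin.cons (C Polynomial.X) X) f

/-- SWP. `swp f`: (1) degrees; (2) values: write `y_A` for a family of pairs over `S`, considered over
`S[T]`; the value of `swp f` there (base change `φ[T] : R[T] → S[T]`) is a polynomial `F(T)` of degree
`≤ D` in `T`, and its homogenization at the pair `a` is the value of `f` at `(a, y)`.
(Coefficients: `coeff m (swp f) = Σ_k coeff (cons k m) f X^k`. Both sides are additive in `f` only
after the support is replaced by a bigger finite set; it may be convenient to rewrite `hev` as a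
sum over any finite set containing the support, or as a sum over `Finsupp` box `m_i ≤ D`.) -/
def G_SWP : Prop := ∀ (R : Type) [CommRing R] (n D : ℕ) (f : MvPolynomial (Fin (n + 1)) R),
  (∀ i, degreeOf i f ≤ D) → (∀ i, degreeOf i (swp f) ≤ D) ∧
  ∀ (S : Type) [CommRing S] (φ : R →+* S) (y : Fin n → Fin 2 → S),
    (hev (Polynomial.mapRingHom φ) D (swp f) (fun i j => Polynomial.C (y i j))).natDegree ≤ D ∧
    ∀ a : Fin 2 → S, hev1 D (fun k => (hev (Polynomial.mapRingHom φ) D (swp f)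
      (fun i j => Polynomial.C (y i j))).coeff k) a = hev φ D f (Fin.cons a y)

/-- The coefficient of `X^k` in `N`, with the variables shifted. -/
def cN {R : Type} [CommRing R] {n : ℕ} (k : ℕ) (N : MvPolynomial (Fin n × Fin 3) (Polynomial R)) :
    MvPolynomial (Fin (n + 1) × Fin 3) R :=
  ∑ m ∈ N.support, monomial (m.mapDomain (Prod.map Fin.succ id)) ((coeff m N).coeff k)

/-- The induction step for norm forms. -/
def stN {R : Type} [CommRing R] {n : ℕ} (D : ℕ) (N : MvPolynomial (Fin n × Fin 3) (Polynomial R)) :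
    MvPolynomial (Fin (n + 1) × Fin 3) R :=
  nrm (2 ^ n * D) (fun k => cN k N) (X (0, 0)) (X (0, 1)) (X (0, 2))

/-- NFA. `stN` is a form of degree `2^n D` in every triple. In the triple `0`: `cN k N` does not contain
these variables, `p^k r^(D'-k)` has degree `D' = 2^n D`, and `g_k g_l p^k r^(D'-l) pw_(l-k)(q, p r)` has
degree `k + (D'-l) + (l-k)` (`pw_m(q, pr)` is a form of degree `m` in `(p,q,r)`). In the triple `i+1`
(then `n ≥ 1`): `cN k N` is a form of degree `2^(n-1) D`, and `nrm` is quadratic in the `cN k N`.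
(Suggestion: `IsWeightedHomogeneous` with the weight `1` on one triple and `0` elsewhere: products,
sums, powers are in Mathlib.) -/
def G_NFA : Prop := ∀ (R : Type) [CommRing R] (n D : ℕ)
  (N : MvPolynomial (Fin n × Fin 3) (Polynomial R)),
  (∀ m ∈ N.support, ∀ i, m (i, 0) + m (i, 1) + m (i, 2) = 2 ^ (n - 1) * D) →
  ∀ m ∈ (stN D N).support, ∀ i, m (i, 0) + m (i, 1) + m (i, 2) = 2 ^ n * D

/-- NFB. The value of `stN`. Given `φ : R → S`, `y, y'` (indexed by `Fin (n+1)`). Apply the hypothesis to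
the ring `S[T]`, `φ[T]`, and the constants `y_(i+1), y'_(i+1)`:
`eval₂ φ[T] (sy ..) N = ∏_{A ⊂ Fin n} F_A(T) =: G(T)`, `F_A = hev φ[T] D (swp f) (y_A)`, of degree `≤ D`
(SWP). The coefficient of `T^k` on the left hand side is the value of `cN k N` (the triples are
constants). So the value of `stN D N` is (NRM (2), (1))
`nrm D' (coeff G) (sy y_0 y'_0) = hev1 D' (coeff G) y_0 * hev1 D' (coeff G) y'_0`, `D' = 2^n D`, and by
HM (`|Finset (Fin n)| = 2^n`) and SWP this is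
`∏_A hev φ D f (cons y_0 y_A) * ∏_A hev φ D f (cons y'_0 y_A)`, the product over the subsets of
`Fin (n+1)` (those containing `0` and the others). Assume NRM, HM, SWP. -/
def G_NFB : Prop := ∀ (R : Type) [CommRing R] (n D : ℕ) (f : MvPolynomial (Fin (n + 1)) R)
  (N : MvPolynomial (Fin n × Fin 3) (Polynomial R)), (∀ i, degreeOf i f ≤ D) →
  (∀ (S : Type) [CommRing S] (φ : Polynomial R →+* S) (y y' : Fin n → Fin 2 → S),
    eval₂ φ (fun p => sy (y p.1) (y' p.1) p.2) N =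
      ∏ A : Finset (Fin n), hev φ D (swp f) (fun i => if i ∈ A then y i else y' i)) →
  ∀ (S : Type) [CommRing S] (φ : R →+* S) (y y' : Fin (n + 1) → Fin 2 → S),
    eval₂ φ (fun p => sy (y p.1) (y' p.1) p.2) (stN D N) =
      ∏ A : Finset (Fin (n + 1)), hev φ D f (fun i => if i ∈ A then y i else y' i)

/-- NF. Norm forms exist. Induction on `n` (for all rings `R` at the same time): `n = 0`: `f = C a`,
`N = C a`. Step: `stN D N`, `N` a norm form of `swp f`. Assume NFA, NFB, SWP. -/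
def G_NF : Prop := ∀ (n : ℕ) (R : Type) [CommRing R] (D : ℕ) (f : MvPolynomial (Fin n) R),
  (∀ i, degreeOf i f ≤ D) → ∃ N, NForm D f N

/-- HEV. Basic properties of `hev`. (1) linearity; (2) scaling of the pairs; (3) affine points;
(4) the trivial local upper bound (as `evbd` in `GC/Loc.lean`). -/
def G_HEV : Prop :=
  (∀ (K S : Type) [Field K] [CommRing S] (φ : K →+* S) (n D : ℕ) (ι : Type) [Fintype ι]
    (f : ι → MvPolynomial (Fin n) K) (μ : ι → K) (y : Fin n → Fin 2 → S),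
    hev φ D (lc f μ) y = ∑ j, φ (μ j) * hev φ D (f j) y) ∧
  (∀ (R S : Type) [CommRing R] [CommRing S] (φ : R →+* S) (n D : ℕ) (f : MvPolynomial (Fin n) R)
    (κ : Fin n → S) (y : Fin n → Fin 2 → S), (∀ i, degreeOf i f ≤ D) →
    hev φ D f (fun i => κ i • y i) = (∏ i, κ i) ^ D * hev φ D f y) ∧
  (∀ (R S : Type) [CommRing R] [CommRing S] (φ : R →+* S) (n D : ℕ) (f : MvPolynomial (Fin n) R)
    (x : Fin n → S), hev φ D f (fun i => ![x i, 1]) = eval₂ φ x f) ∧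
  (∀ (K : Type) [Field K] [AdmissibleAbsValues K] (n D : ℕ) (f : MvPolynomial (Fin n) K),
    (∀ i, degreeOf i f ≤ D) → ∃ c : AbsoluteValue K ℝ → ℝ, FS c ∧ (∀ v, 0 ≤ c v) ∧
      ∀ v (y : Fin n → Fin 2 → K), v (hev (RingHom.id K) D f y) ≤
        Real.exp (c v) * (∏ i, max (v (y i 0)) (v (y i 1))) ^ D)

/-! ## Block M: multiplication -/

/-- MUL. The polynomials of the multiplication by `m`. Induction on `m` (two steps).
`m = 0`: `(1, 0)`; `m = 1`: `(X, 1)`. Let `m ≥ 1`, `(A,B)` for `m`, `(A',B')` for `m-1`.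
`(s,t,u) := asm C W (sy ![A,B] ![X,1])` in `K[X]`, i.e. `asm` at `(AX, A+BX, B)`.
(i) `(A,B)` (and `(A',B')`) are coprime, since over an algebraic closure every `x` is the `x`-coordinate
of a point `P ≠ 0`, and `(A(x),B(x)) = σ (mP).xRep ≠ 0`.
(ii) For every field `F ⊃ K` and `P ∈ W(F)`, `P ≠ 0`: `(s,t,u)(x(P)) = c (m+1)P.sym2x (m-1)P` with `c ≠ 0`:
`(A,B)(x) = σ (mP).xRep`, `(x,1) = P.xRep`, `addSub_correct` (`BL/PAR.lean`; `asm φ W v` is the value of
`addSubMap (W.map φ)`, `addSub_eval`), and `asm (σ v) = σ² asm v`.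
(iii) Hence (algebraic closure, infinitely many `x`) `s B'² - t A'B' + u A'² = 0` in `K[X]`.
(iv) `m = 1`: `A' = 1`, `B' = 0`, so `u = 0`; take `(A'',B'') = (s,t)`. `m ≥ 2`: `B' ≠ 0` (otherwise
`A'`, of degree `(m-1)² ≥ 1`, has a root over the algebraic closure, contradiction to (i)),
`B' | u A'²` so `B' | u`, `A' | s B'²` so `A' | s`; `s = A'A''`, `u = B'B''`, and
`t = A''B' + B''A'` after cancelling `A'B' ≠ 0`.
(v) representation: `(s,t,u)(x) = c (X₊X₋, X₊Z₋+Z₊X₋, Z₊Z₋)`, `(A',B')(x) = σ'(X₋,Z₋)`: so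
`(A'',B'')(x) = (c/σ')(X₊,Z₊)` (cases `X₋,Z₋ ≠ 0`; `Z₋ = 0, X₋ = 1`; `X₋ = 0, Z₋ = 1`).
(vi) degrees: `AX` is monic of degree `m²+1`, `A+BX` has degree `≤ m²`, `B` degree `≤ m²-1`; so
`s = (AX)² - ..` is monic of degree `2m²+2`, `A''` is monic of degree `2m²+2-(m-1)² = (m+1)²`;
`t` has degree `≤ 2m²+1`, `A''B'` has degree `≤ (m+1)²+(m-1)²-1 = 2m²+1`, so
`deg B''A' ≤ 2m²+1`, `deg B'' ≤ 2m²+1-(m-1)² = (m+1)²-1`. (`m = 1`: `B'' = t` of degree `≤ 3`.) -/
def G_MUL : Prop := ∀ (K : Type) [Field K] [DecidableEq K] (W : Affine K) [W.IsElliptic] (m : ℕ),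
  ∃ A B : Polynomial K, MulPol W m A B

/-! ## Block H: the polynomials of the translates -/

/-- DEG. Degrees of `HP` and its leading coefficient. A triple `trp` consists of polynomials of degree
`≤ 2c_i²` in `t`, `≤ 2` in `ξ_i`, `0` in the other `ξ`; the norm form has degree `2^(n-1) D` in every
triple. The coefficient of `t^(2c_i²)` in the triple `i` is `(ξ_i², 2ξ_i, 1)` (`A_i` is monic of degree
`c_i²`, `deg B_i < c_i²`), which is `sy (ξ_i,1) (ξ_i,1)`. The coefficient of `t^a`,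
`a = Σ_i 2^(n-1) D 2c_i²`, in `HP` is the value of `N` at these coefficients
(coefficient of a product at the sum of the degree bounds), which is `f^(2^n)` by `NForm.val`
with `S = K[ξ]`, `φ = C` (all choices give `hev C D f ![ξ_i,1] = f`). Assume HEV. -/
def G_DEG : Prop := ∀ (K : Type) [Field K] [DecidableEq K] (W : Affine K) (n D : ℕ) (c : Fin n → ℕ)
  (A B : Fin n → Polynomial K), (∀ i, MulPol W (c i) (A i) (B i)) →
  ∀ (f : MvPolynomial (Fin n) K) (N : MvPolynomial (Fin n × Fin 3) K), NForm D f N →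
    (HP W A B N).natDegree ≤ aa n D c ∧
    (∀ k i, degreeOf i ((HP W A B N).coeff k) ≤ 2 ^ n * D) ∧
    (HP W A B N).coeff (aa n D c) = f ^ 2 ^ n

/-- HVAL. The value of `HP` at `t = x(w)`, `ξ_i = x(b_i)`. The value of `trp` there is
`asm φ W (sy (A_i(t),B_i(t)) (ξ_i,1))`, `(A_i(t),B_i(t)) = σ_i (c_i w).xRep` (`MulPol.rep`),
`(ξ_i,1) = b_i.xRep`, `asm` is homogeneous of degree `2`, so by `addSub_correct` it is
`κ_i (c_i w + b_i).sym2x (c_i w - b_i) = sy (κ_i (c_i w + b_i).xRep) (c_i w - b_i).xRep`,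
`κ_i = σ_i² c ≠ 0`; use `NForm.val`. -/
def G_HVAL : Prop := ∀ (K : Type) [Field K] [DecidableEq K] (W : Affine K) [W.IsElliptic] (n D : ℕ)
  (c : Fin n → ℕ) (A B : Fin n → Polynomial K), (∀ i, MulPol W (c i) (A i) (B i)) →
  ∀ (f : MvPolynomial (Fin n) K) (N : MvPolynomial (Fin n × Fin 3) K), NForm D f N →
  ∀ (F : Type) [Field F] [DecidableEq F] (φ : K →+* F) (W' : Affine F), W' = W.map φ →
  ∀ (w : W'.Point) (b : Fin n → W'.Point), w ≠ 0 → (∀ i, b i ≠ 0) →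
    ∃ κ : Fin n → F, (∀ i, κ i ≠ 0) ∧
      (∀ i j, asm φ W (sy ![(A i).eval₂ φ (xc w), (B i).eval₂ φ (xc w)] ![xc (b i), 1]) j =
        κ i * (c i • w + b i).sym2x (c i • w - b i) j) ∧
      Polynomial.eval (xc w) ((HP W A B N).map (eval₂Hom φ (fun i => xc (b i)))) =
        ∏ A' : Finset (Fin n), hev φ D f (fun i =>
          if i ∈ A' then κ i • (c i • w + b i).xRep else (c i • w - b i).xRep)

/-- LK. Local estimate for one coordinate. `M(P) = max(|X|,|Z|)` for `(X,Z) = P.xRep`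
(`Mv v (xc P)`, also for `P = 0`). Gauss: `M(P)M(Q) ≤ cst v 2 * max_j |(P.sym2x Q)_j|`
(affine points: `GC.Mv_mul_le`). So
`|κ| M(mw+b) M(mw-b) ≤ cst v 2 max_j |asm_j|`, `|asm (v)|_j ≤ C_v max|v|²` (`cst v 10 * bet W v`),
`|sy a b| ≤ cst v 2 |a||b|`, and `max(|A(t)|,|B(t)|) ≤ C_v M(t)^(m²)` (`deg A, deg B ≤ m²`: the estimate
`evbd` of `GC/Loc.lean`, or directly: `cst v (m²+1) * max(1, |coefficients|)`). The exponent `cc v` is
a sum of logarithms of constants `cst v ..`, `bet W v` and `log⁺` of the coefficients of `A, B`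
(finite support). -/
def G_LK : Prop := ∀ (K : Type) [Field K] [AdmissibleAbsValues K] [DecidableEq K] (W : Affine K)
  (m : ℕ) (A B : Polynomial K), MulPol W m A B →
  ∃ cc : AbsoluteValue K ℝ → ℝ, FS cc ∧ (∀ v, 0 ≤ cc v) ∧
    ∀ (v : AbsoluteValue K ℝ) (w b : W.Point) (κ : K), w ≠ 0 → b ≠ 0 →
    (∀ j, asm (RingHom.id K) W (sy ![A.eval (xc w), B.eval (xc w)] ![xc b, 1]) j =
      κ * (m • w + b).sym2x (m • w - b) j) →
    v κ * (Mv v (xc (m • w + b)) * Mv v (xc (m • w - b))) ≤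
      Real.exp (cc v) * (Mv v (xc w) ^ (m ^ 2) * Mv v (xc b)) ^ 2

/-- LOC. The local estimate: `|H(t,ξ)| ≤ C_v M(t)^a M(ξ)^e |f(x(z))| / M(x(z))^D`, `z = cw + b`,
`a = aa n D c`, `e = 2^n D`. Proof: HVAL with `F = K`, `φ = id`, `W' = W`. For `A' = univ` the factor is
`(∏κ_i)^D f(x(z))` (HEV (2), (3); `z_i` affine). The other `2^n - 1` factors are bounded by HEV (4):
`C_v ∏_i |y_i|^D`, `|y_i| = |κ_i| M(z_i)` if `i ∈ A'`, `M(z'_i)` otherwise (`z'_i = c_i w - b_i`).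
Multiplying by `M(x(z))^D = ∏ M(z_i)^D`: `|H| M(x(z))^D ≤ C_v |f(x(z))| ∏_{A'} ∏_i |y_i|^D
= C_v |f(x(z))| ∏_i (|κ_i| M(z_i) M(z'_i))^(2^(n-1) D)` (every `i` is in half of the subsets), and LK.
(`n = 0`: `H = f` constant.) Assume HVAL, HEV, LK. -/
def G_LOC : Prop := ∀ (K : Type) [Field K] [AdmissibleAbsValues K] [DecidableEq K] (W : Affine K)
  [W.IsElliptic] (n D : ℕ) (c : Fin n → ℕ) (A B : Fin n → Polynomial K),
  (∀ i, MulPol W (c i) (A i) (B i)) →
  ∀ (f : MvPolynomial (Fin n) K) (N : MvPolynomial (Fin n × Fin 3) K), (∀ i, degreeOf i f ≤ D) →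
  NForm D f N → ∃ cc : AbsoluteValue K ℝ → ℝ, FS cc ∧ (∀ v, 0 ≤ cc v) ∧
    ∀ (v : AbsoluteValue K ℝ) (w : W.Point) (b : Fin n → W.Point), w ≠ 0 → (∀ i, b i ≠ 0) →
    (∀ i, c i • w + b i ≠ 0) →
    v (Polynomial.eval (xc w) ((HP W A B N).map (eval (fun i => xc (b i))))) *
        Mx v (fun i => xc (c i • w + b i)) ^ D ≤
      Real.exp (cc v) * (Mv v (xc w) ^ aa n D c * Mx v (fun i => xc (b i)) ^ (2 ^ n * D)) *
        v (eval (fun i => xc (c i • w + b i)) f)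

/-! ## Block A: the centre and its translates along a line do not fill the space -/

/-- PERM. `GoodF` is invariant under permutations of the variables. -/
def G_PERM : Prop := ∀ (K : Type) [Field K] (n : ℕ) (ι : Type) (D : ℕ)
  (f : ι → MvPolynomial (Fin n) K) (σ : Equiv.Perm (Fin n)), GoodF D f →
  GoodF D (fun j => rename σ (f j))

/-- TD. The common zeros have codimension `≥ 2`: the coordinates of a common zero over `Ω` are algebraic
over `K(T)` for a set `T` of at most `n - 2` elements.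
Proof. Let `J = {i : y_i = (1,0)}`. If `|J| ≥ 2` take `T = {y_i 0 : i ∉ J}`. Let `B` be a maximal
algebraically independent subset of `{y_i 0 : i ∉ J}` (`exists_isTranscendenceBasis_subset` or similar):
all `y_i 0`, `i ∉ J`, are algebraic over `K(B)`; if `|B| ≤ n-2` take `T = B`. Otherwise `|B| ≥ n-1`, so
there is `i₀` such that the `y_i 0`, `i ≠ i₀`, are (finite and) algebraically independent, and
`J = ∅` or `J = {i₀}`. By PERM we may assume `i₀ = 0`. If `y_0 = (1,0)`: `hev f_j y` is the value at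
`(y_i 0)_{i>0}` of the coefficient of `X_0^D` in `f_j`; this coefficient must be `0` for all `j`,
contradiction to `top`. If `y_0 1 = 1`: `f_j(y) = 0` for all `j`, and `GoodF.elim` (`GC/Alg.lean`) gives
`R ≠ 0` with `R((y_i 0)_{i>0}) = 0`: contradiction. Assume PERM, HEV. -/
def G_TD : Prop := ∀ (K : Type) [Field K] (n : ℕ), 2 ≤ n → ∀ (ι : Type) [Fintype ι] (D : ℕ)
  (f : ι → MvPolynomial (Fin n) K), GoodF D f →
  ∀ (Ω : Type) [Field Ω] [Algebra K Ω] (y : Fin n → Fin 2 → Ω),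
  (∀ i, y i 1 = 1 ∨ y i = ![1, 0]) → (∀ j, hev (algebraMap K Ω) D (f j) y = 0) →
  ∃ T : Finset Ω, T.card + 2 ≤ n ∧ ∀ i, y i 1 = 1 →
    IsAlgebraic (IntermediateField.adjoin K (T : Set Ω)) (y i 0)

/-- GRP. Points with coordinates in an (in `Ω`) algebraically closed subfield `L ⊃ K`. If `x(P) ∈ L` for a
point `P` (or `P = 0`) then `y(P) ∈ L`; sums, negatives and multiples of such points are such points
(the addition formulas are rational; e.g. `P` is in the image of `W_L(L) → W(Ω)`, which is a subgroup: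
`Affine.Point.map`). -/
def G_GRP : Prop := ∀ (K Ω : Type) [Field K] [Field Ω] [DecidableEq Ω] [Algebra K Ω]
  (L : IntermediateField K Ω), (∀ x : Ω, IsAlgebraic L x → x ∈ L) →
  ∀ (W : Affine K) (W' : Affine Ω), W' = W.map (algebraMap K Ω) →
  ∃ H : AddSubgroup W'.Point, ∀ P : W'.Point, P ∈ H ↔ xc P ∈ L

/-- AV. Over a suitable algebraically closed field: for a generic `b` the curve `± b + cE` does not meet
the centre. Proof. `Ω` = algebraic closure of `K(X_1..X_n)`, `ξ_i = X_i`. Suppose that all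
`hev (f_j)` vanish at `z = (c_i u + s_i b_i)_i`. By TD there is `T`, `|T| ≤ n-2`, such that the `x(z_i)`
(`z_i ≠ 0`) are algebraic over `K(T)`. Let `L` be the algebraic closure in `Ω` of `K(T ∪ {x(u)})`. By GRP
`z_i` and `u`, hence `s_i b_i = z_i - c_i u` and `b_i`, have `x`-coordinates in `L` (`xc 0 = 0 ∈ L`). So the
`n` algebraically independent elements `ξ_i` are algebraic over `K(T ∪ {x(u)})`, generated by `n-1`
elements: contradiction (transcendence degree; `ξ` is injective). Assume TD, GRP. -/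
def G_AV : Prop := ∀ (K : Type) [Field K] (W : Affine K) [W.IsElliptic] (n : ℕ), 2 ≤ n →
  ∀ (ι : Type) [Fintype ι] (D : ℕ) (f : ι → MvPolynomial (Fin n) K), GoodF D f →
  ∀ c : Fin n → ℕ, ∃ (Ω : Type) (_ : Field Ω) (_ : DecidableEq Ω) (_ : IsAlgClosed Ω)
    (φ : K →+* Ω) (ξ : Fin n → Ω), (∀ p : MvPolynomial (Fin n) K, p ≠ 0 → eval₂ φ ξ p ≠ 0) ∧
    ∀ W' : Affine Ω, W' = W.map φ → ∀ b : Fin n → W'.Point, (∀ i, b i ≠ 0 ∧ xc (b i) = ξ i) →
    ∀ (u : W'.Point) (s : Fin n → ℤˣ),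
      ¬ ∀ j, hev φ D (f j) (fun i => (c i • u + (s i : ℤ) • b i).xRep) = 0

/-- NV. The resultant is not zero for suitable members of the linear system.
Proof. Take the data of AV; over the algebraically closed field `Ω` there are points `b_i` with
`x(b_i) = ξ_i`. Write `a = aa n D c`, `H_μ = HP` of `Nμ` mapped to `Ω[X]` by `ξ`. By DEG `H_μ` has degree
`≤ a` and coefficient `f_μ(ξ)^(2^n)` at `a`. (1) The `f_j(ξ)` are not all zero (some `f_j ≠ 0`): choose
`μ ∈ K^ι` with `f_μ(ξ) = Σ φ(μ_j) f_j(ξ) ≠ 0`. Then `H_μ` has degree `a`, finitely many roots `t`; each is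
`x(u)` for some `u ≠ 0`. (2) For each such `u` and each `A' ⊂ Fin n` the vector
`(hev φ D f_j y_A')_j`, `y_A'` the family in HVAL, is not `0` by AV (the pairs are nonzero multiples of
the `xRep` of `c_i u ± b_i`; HEV (2)). A field `K` of characteristic `0` is infinite: there is `ν ∈ K^ι`
with `Σ φ(ν_j) f_j(ξ) ≠ 0` and `Σ_j φ(ν_j) hev φ D f_j y_A' ≠ 0` for all these finitely many vectors
(`{ν ∈ K^ι : Σ φ(ν_j) w_j = 0}` is a proper `K`-subspace if `w ≠ 0`; a finite union of proper subspaces is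
not everything: `Subspace.biUnion_ne_univ_of_top_notMem`). By HVAL `H_ν(t) ≠ 0` for all roots `t` of
`H_μ`. Both have degree exactly `a`; `resultant_eq_zero_iff` / `resultant_eq_prod_roots_sub`: the
resultant of `H_μ, H_ν` is not `0`; it is the image of the resultant over `K[ξ]`
(`resultant_map_map`). (`a = 0`: the resultant is `1`.) Assume AV, DEG, HVAL, HEV. -/
def G_NV : Prop := ∀ (K : Type) [Field K] [CharZero K] [DecidableEq K] (W : Affine K)
  [W.IsElliptic] (n : ℕ), 2 ≤ n → ∀ (ι : Type) [Fintype ι] (D : ℕ)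
  (f : ι → MvPolynomial (Fin n) K), GoodF D f →
  ∀ (c : Fin n → ℕ) (A B : Fin n → Polynomial K), (∀ i, MulPol W (c i) (A i) (B i)) →
  ∃ μ ν : ι → K, ∀ Nμ Nν, NForm D (lc f μ) Nμ → NForm D (lc f ν) Nν →
    Polynomial.resultant (HP W A B Nμ) (HP W A B Nν) (aa n D c) (aa n D c) ≠ 0

/-- RL. Local estimates for resultants of polynomials of formal degree `a`. `M` = Sylvester matrix
(`Polynomial.sylvester F G a a`, size `2a`, entries coefficients or `0`). (1) `|det| ≤ (2a)! N^(2a)`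
(archimedean), `≤ N^(2a)` (nonarchimedean); cf. `GC.det_abv_le` (`GC/Interp.lean`). (2) For
`0 ≤ k ≤ 2a-1`: `Res · t^k = α(t) F(t) + β(t) G(t)` with `deg α, β ≤ a-1` and coefficients which are
signed minors of size `2a-1`, so `≤ (2a-1)! N^(2a-1)`
(`(t^i)_i · M` = the vector of the `t^i F(t)`, `t^i G(t)`, `0 ≤ i < a`, up to the order; multiply by the
adjugate: `Matrix.mul_adjugate`; or `Polynomial.sylveserMap_comp_adjSylvester`). Hence
`|Res| |t|^k ≤ C N^(2a-1) M(t)^(a-1) max(|F(t)|,|G(t)|)`; take `k = 0` if `|t| ≤ 1`, `k = 2a-1`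
otherwise, so the left side is `|Res| M(t)^(2a-1)`; divide by `M(t)^(a-1)`. -/
def G_RL : Prop := ∃ C : ℕ → ℝ, (∀ a, 1 ≤ C a) ∧ ∀ (K : Type) [Field K] (v : AbsoluteValue K ℝ)
  (a : ℕ) (F G : Polynomial K) (t : K) (N : ℝ), F.natDegree ≤ a → G.natDegree ≤ a →
  (∀ k, v (F.coeff k) ≤ N) → (∀ k, v (G.coeff k) ≤ N) →
  v (Polynomial.resultant F G a a) ≤ cst v (C a) * N ^ (2 * a) ∧
  (1 ≤ a → v (Polynomial.resultant F G a a) * Mv v t ^ a ≤
    cst v (C a) * N ^ (2 * a - 1) * max (v (F.eval t)) (v (G.eval t)))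

/-- EST. The main estimate. Proof. MUL: `A_i, B_i`. NV: `μ, ν`; NF: norm forms `Nμ, Nν` of `f_μ = lc f μ`,
`f_ν`. `a = aa n D c ≥ 1` (`D ≥ 1`, `c ≠ 0`), `e = 2^n D`, `ρ = resultant (HP Nμ) (HP Nν) a a ≠ 0`.
Let `w, b` be as in the statement, `z_i = c_i w + b_i`, `t = x(w)`, `ξ = x(b)`; `ρ(ξ)` is the resultant of
`Hμ, Hν ∈ K[X]` (`HP` mapped by evaluation at `ξ`; `resultant_map_map`). For every place `v`: the
coefficients of `Hμ, Hν` are `≤ exp(c₁ v) M(ξ)^e =: N_v` (DEG, `evbd` for the finitely many coefficients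
`k ≤ a`). By RL (2) and LOC, and `|f_μ(x)| ≤ cst v |ι| * max_j|μ_j| * Fm f v x` (same for `ν`):
`|ρ(ξ)| M(x(z))^D ≤ exp(c₂ v) M(ξ)^((2a-1)e + e) Fm f v (x(z))`, and by RL (1)
`|ρ(ξ)| ≤ exp(c₂ v) M(ξ)^(2ae)`. Since `ρ(ξ) ≠ 0`, `Fm > 0`, and
`lamF D f v (x(z)) = log⁺(M(x(z))^D / Fm) ≤ c₂ v + 2ae log M(ξ) - log|ρ(ξ)|` (the right hand side is
nonnegative by the second estimate). Sum over the places: `PS (log |ρ(ξ)|) = 0` (product formula),
`PS (log Mx) = Σ hx(b_i)` (`PS_log_Mx`, `hx` is `logHeight₁ (xc ·)`), `2ae = 2^(2n+1) D² Σ c_i²`.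
`C = PS c₂`. Assume MUL, NF, NV, DEG, LOC, RL. -/
def G_EST : Prop := ∀ (K : Type) [Field K] [NumberField K] [DecidableEq K] (W : Affine K)
  [W.IsElliptic] (n : ℕ), 2 ≤ n → ∀ (ι : Type) [Fintype ι] (D : ℕ), 1 ≤ D →
  ∀ (f : ι → MvPolynomial (Fin n) K), GoodF D f → ∀ c : Fin n → ℕ, c ≠ 0 →
  ∃ (ρ : MvPolynomial (Fin n) K) (C : ℝ), ρ ≠ 0 ∧ 0 ≤ C ∧
    ∀ (w : W.Point) (b : Fin n → W.Point), w ≠ 0 → (∀ i, b i ≠ 0) → (∀ i, c i • w + b i ≠ 0) →
    eval (fun i => xc (b i)) ρ ≠ 0 →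
    gF D f (fun i => xc (c i • w + b i)) ≤
      2 ^ (2 * n + 1) * (D : ℝ) ^ 2 * (∑ i, (c i : ℝ) ^ 2) * ∑ i, hx (b i) + C

/-- SHIFT. Let `D'` be a bound for the degrees of `ρ`, `N` a norm form (NF), `H = HP W A B N`, `a = aa n D' c`.
For `z` with `ρ(x(z)) ≠ 0`, `z_i ≠ 0`, the polynomial `H(·, x(z)) ∈ K[X]` has degree `≤ a` and the
coefficient `ρ(x(z))^(2^n) ≠ 0` at `a` (DEG): at most `a` roots. For `w = (t+s)P ≠ 0` with `x(w)` not a
root, HVAL (`b := z`, `φ = id`) and the factor `A' = ∅` give `hev ρ ((c_i w - z_i).xRep) ≠ 0`, and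
`(c_i w - z_i).xRep = (z_i - c_i w).xRep`; if all `z_i - c_i w ≠ 0` this is `ρ(x(z - cw))` (HEV (3)).
Excluded `s ∈ {0,..,M}`: `(t+s)P = 0` (at most one, `P` has infinite order); `z_i = c_i (t+s) P` (for
`c_i ≥ 1` at most one `s`; for `c_i = 0` none as `z_i ≠ 0`); `x((t+s)P)` a root: each root is
`x(kP)` for at most two `k` (`XEQ`). So `M = 2a + n + 1`. Assume MUL, NF, DEG, HVAL, HEV. -/
def G_SHIFT : Prop := ∀ (K : Type) [Field K] [CharZero K] [DecidableEq K] (W : Affine K)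
  [W.IsElliptic] (n : ℕ) (ρ : MvPolynomial (Fin n) K) (c : Fin n → ℕ), ∃ M : ℕ,
  ∀ (P : W.Point) (z : Fin n → W.Point) (t : ℤ), (∀ k : ℤ, k ≠ 0 → k • P ≠ 0) → (∀ i, z i ≠ 0) →
    eval (fun i => xc (z i)) ρ ≠ 0 → ∃ s : ℕ, s ≤ M ∧ (t + s) • P ≠ 0 ∧
      (∀ i, z i - c i • ((t + s) • P) ≠ 0) ∧
      eval (fun i => xc (z i - c i • ((t + s) • P))) ρ ≠ 0

/-! ## Block D: arithmetic of the coefficients, structure -/

/-- DIR. Simultaneous approximation. `A = max |a_i| ≥ 1`, say `A = |a_k|`. Dirichlet (pigeonhole: among the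
`B^n + 1` vectors `(q a_i / A mod 1)_i`, `0 ≤ q ≤ B^n`, two lie in the same cube of side `1/B`; Mathlib
has the case of one number, `exists_int_int_abs_mul_sub_le`): there are `1 ≤ q ≤ B^n` and integers
`c_i` with `|q a_i / A - c_i| ≤ 1/B` (`< 1/B`). As `B ≥ 2`: `c_k = ± q` (so `c ≠ 0`), and
`|c_i| ≤ q + 1/B`, so `|c_i| ≤ q`. Let `t` be the integer nearest to `A/q`, `A/q = t + η`, `|η| ≤ 1/2`.
`a_i = (A/q)(q a_i/A) = (A/q)(c_i + θ_i)`, `|θ_i| ≤ 1/B`, so `a_i - t c_i = η c_i + (A/q) θ_i`. -/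
def G_DIR : Prop := ∀ (n B : ℕ), 2 ≤ B → ∀ (a : Fin n → ℤ) (A : ℕ), 1 ≤ A →
  (∀ i, |a i| ≤ A) → (∃ k, |a k| = A) →
  ∃ (c : Fin n → ℤ) (t : ℤ) (q : ℕ), c ≠ 0 ∧ 1 ≤ q ∧ q ≤ B ^ n ∧ (∀ i, |c i| ≤ q) ∧
    ∀ i, |(a i : ℝ) - t * c i| ≤ (q : ℝ) + (A : ℝ) / (q * B)

/-- STR. Structure of the families of rank `≤ 1`. Modulo the torsion subgroup `T` of `G` we are in a
torsion free group `G' = G/T`; claim: pairwise dependent `x_1,..,x_n` of a torsion free group are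
multiples of one element. Induction on `n`: `x_i = a_i y` for `i < n`; if all these `x_i` are `0` take
`x_n`; otherwise `x_n` is dependent with some `x_i ≠ 0`, hence with `y` (`a x_i = b x_n`, not both zero;
if `b = 0` then `a x_i = 0`, `a = 0`: impossible; so `b ≠ 0` and `b x_n = a a_i y`). If `a y = b x`,
`b ≠ 0`, `g = gcd(a,b)`: `g(a'y - b'x) = 0`, so `a'y = b'x`, `u a' + v b' = 1`, `p := v y + u x`:
`b' p = v b' y + u b' x = (v b' + u a') y = y`, `a' p = v a' y + u a' x = v b' x + u a' x = x`. -/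
def G_STR : Prop := ∀ (G : Type) [AddCommGroup G] (n : ℕ) (z : Fin n → G), RankLeOne z →
  ∃ (P : G) (a : Fin n → ℤ), ∀ i, ∃ N : ℕ, 0 < N ∧ N • (z i - a i • P) = 0

/-- TOR. The torsion of `E(K)` has finite exponent: a canonical height (`CAN`; proved in `BL`) vanishes at
torsion points, and `NOR` (proved in `BL`) says that `{P : H P ≤ 0}` is finite. Take the product of
the orders of these finitely many torsion points. -/
def G_TOR : Prop := ∀ (K : Type) [Field K] [NumberField K] [DecidableEq K] (W : Affine K)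
  [W.IsElliptic], ∃ N : ℕ, 0 < N ∧ ∀ (P : W.Point) (k : ℕ), 0 < k → k • P = 0 → N • P = 0

/-- REL. Relations `m z_0 = ± m' z_1` define proper closed subsets: with `(A,B)` for `m` and `(A',B')` for
`m'` (MUL), `Z = A(x_0) B'(x_1) - A'(x_1) B(x_0)`. It vanishes: the `xRep` of `m z_0` and `m' z_1` are
equal, and `(A,B)(x_0) = σ xRep`, `(A',B')(x_1) = σ' xRep`. It is not `0`: if `m' ≥ 1`: `B' ≠ 0` (as in
MUL; or: over an algebraic closure some `P` has `m'P ≠ 0`, since otherwise `B' = 0`, then `A'`, of degree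
`m'² ≥ 1`, has a root `x = x(P)` and `(A',B')(x) = 0`, contradiction), and if moreover `m ≥ 1` the
coefficient of `x_0^(m²)` is `B'(x_1) ≠ 0`; `m = 0`: `Z = B'(x_1) ≠ 0`. If `m' = 0`, `m ≥ 1`:
`Z = -B(x_0) ≠ 0`. Assume MUL. -/
def G_REL : Prop := ∀ (K : Type) [Field K] [DecidableEq K] (W : Affine K) [W.IsElliptic] (n : ℕ)
  (i₀ i₁ : Fin n), i₀ ≠ i₁ → ∀ (m m' : ℕ), (m ≠ 0 ∨ m' ≠ 0) →
  ∃ Z : MvPolynomial (Fin n) K, Z ≠ 0 ∧ ∀ z : Fin n → W.Point, z i₀ ≠ 0 → z i₁ ≠ 0 →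
    (m • z i₀ = m' • z i₁ ∨ m • z i₀ = -(m' • z i₁)) → eval (fun i => xc (z i)) Z = 0

/-- RO. The theorem. Notation: `κ = 2^(2n+1) D²`; `H` a canonical height of `W` with `|H - hx| ≤ c₀` (`CAN`,
proved in `BL`; `QSN`: `H(kP) = k² H(P)`, `H(P+τ) = H(P)` for torsion `τ`, e.g. by `H(N(P+τ)) = H(NP)`);
`N_t` from TOR.
Case `D = 0`: the `f_j` are constants, not all zero (a prime `X_0` would divide all otherwise), so
`gF D f` is a constant, `Z = 1`. Let `D ≥ 1`. Choose `B ≥ 2` with `κ 4 n² / B² ≤ δ/2`. For every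
`c ∈ {0..B^n}^n`, `c ≠ 0`: `ρ_c, C_c` (EST), `M_c` (SHIFT for `ρ_c`, `c`); `M = max M_c`. Choose `A₀ ≥ 1` with
`κ n² B^(4n) (4 + 2M²) ≤ (δ/2) A₀²`. `Z = ∏_c ρ_c * ∏ Z_(m,m')`, the second product over all
`m, m' ≤ N_t A₀`, `(m,m') ≠ (0,0)` (REL with `i₀ = 0`, `i₁ = 1`).
Let `z` be as in the statement, `Z(x(z)) ≠ 0`. STR: `z_i = a_i P + τ_i`, `τ_i` torsion.
If `P` is torsion then all `z_i` are, `N_t z_0 = 0 = 0 z_1`: excluded by `Z_(N_t,0)`. So `P` has infinite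
order. Let `A = max|a_i|`. If `A < A₀` (in particular if `a = 0`): `N_t a_1 z_0 = N_t a_0 a_1 P = N_t a_0 z_1`,
so `m z_0 = ± m' z_1` with `m = N_t|a_1|`, `m' = N_t|a_0|`, excluded if `(a_0,a_1) ≠ 0`; otherwise
`N_t z_0 = 0`, excluded. So `A ≥ A₀`. DIR: `c, t, q`. Replace `z_i` by `-z_i` (and `a_i, τ_i, c_i` by their
negatives) for the `i` with `c_i < 0`: this does not change `x(z_i)`; so `c_i ≥ 0`, `c ∈ {0..B^n}^n`.
SHIFT: `0 ≤ s ≤ M_c`, `w = (t+s)P ≠ 0`, `b_i = z_i - c_i w ≠ 0`, `ρ_c(x(b)) ≠ 0`. EST: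
`gF D f (x(z)) ≤ κ (Σ c_i²) Σ hx(b_i) + C_c`. `b_i = (a_i - t c_i - s c_i) P + τ_i`, so
`hx(b_i) ≤ H(b_i) + c₀ = (a_i - t c_i - s c_i)² H(P) + c₀ ≤ (2 (q + A/(qB))² + 2 s² c_i²) H(P) + c₀
≤ (4 q² + 4 A²/(q²B²) + 2 M² q²) H(P) + c₀`, `Σ c_i² ≤ n q²`, so the right hand side is
`≤ κ n² (4 q⁴ + 2 M² q⁴ + 4 A²/B²) H(P) + C ≤ ((δ/2) A² + (δ/2) A²) H(P) + C = δ A² H(P) + C`, and
`A² H(P) ≤ Σ H(z_i) ≤ Σ hx(z_i) + n c₀`. Assume EST, SHIFT, DIR, STR, TOR, REL. -/
def G_RO : Prop := ∀ (K : Type) [Field K] [NumberField K] [DecidableEq K] (W : Affine K)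
  [W.IsElliptic] (n : ℕ), 2 ≤ n → ∀ (ι : Type) [Fintype ι] (D : ℕ)
  (f : ι → MvPolynomial (Fin n) K), GoodF D f → ∀ δ : ℝ, 0 < δ →
  ∃ (Z : MvPolynomial (Fin n) K) (C : ℝ), Z ≠ 0 ∧ 0 ≤ C ∧ ∀ z : Fin n → W.Point, (∀ i, z i ≠ 0) →
    RankLeOne z → eval (fun i => xc (z i)) Z ≠ 0 →
    gF D f (fun i => xc (z i)) ≤ δ * ∑ i, hx (z i) + C

end

end Pool.Agent.Helper5.RO
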