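import Pool.Agent.Helper5.RO.Goals

/-!
# Project RO: the goal `HM`
-/

namespace Pool.Agent.Helper5.RO

theorem hev1_eq {S : Type} [CommRing S] (D : ℕ) (p : Polynomial S) (a : Fin 2 → S) :
    hev1 D (fun k => p.coeff k) a = MvPolynomial.eval a (p.homogenize D) := by
  unfold hev1 Polynomial.homogenize
  rw [map_sum, Finset.Nat.sum_antidiagonal_eq_sum_range_succ_mk]
  refine Finset.sum_congr rfl fun k _ => ?_
  rw [MvPolynomial.eval_monomial]
  simp [mul_assoc]

theorem gHM : G_HM := by
  intro S _ α s D F hF a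
  rw [hev1_eq]
  have h := Polynomial.homogenize_finsetProd (s := s) (p := F) (n := fun _ => D) hF
  rw [Finset.sum_const, smul_eq_mul] at h
  rw [h, map_prod]
  exact Finset.prod_congr rfl fun i _ => (hev1_eq D (F i) a).symm

end Pool.Agent.Helper5.RO
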