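import Pool.Agent.Helper5.RO.Goals

/-!
# Project RO: the goal `NF`
-/

namespace Pool.Agent.Helper5.RO

open MvPolynomial

theorem gNF (hSWP : G_SWP) (hNFA : G_NFA) (hNFB : G_NFB) : G_NF := by
  intro n
  induction n with
  | zero =>
    intro R _ D f _
    refine ⟨C (coeff 0 f), ⟨fun _ _ i => i.elim0, fun S _ φ y y' => ?_⟩⟩
    have hf : f = C (coeff 0 f) := eq_C_of_isEmpty f
    rw [eval₂_C, Fintype.prod_subsingleton _ (∅ : Finset (Fin 0))]
    unfold hev
    simp only [Finset.univ_eq_empty, Finset.prod_empty, mul_one]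
    by_cases h0 : coeff 0 f = 0
    · rw [hf, h0]
      simp
    · have hs : f.support = {0} := by
        ext m
        rw [mem_support_iff, Finset.mem_singleton]
        constructor
        · intro _
          exact Subsingleton.elim _ _
        · rintro rfl
          exact h0
      rw [hs, Finset.sum_singleton]
  | succ n ih =>
    intro R _ D f hf
    obtain ⟨h1, -⟩ := hSWP R n D f hf
    obtain ⟨N, hN⟩ := ih (Polynomial R) D (swp f) h1
    exact ⟨stN D N, ⟨hNFA R n D N hN.hom, hNFB R n D f N hf hN.val⟩⟩

end Pool.Agent.Helper5.RO
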