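import Pool.Agent.Helper11.Gap.Dynamics
import Pool.Agent.Helper46.RO.Sim

/-!
# Actions of a subgroup by similarities of an ultrametric space: ping-pong, minimal distances
-/

namespace Pool.Agent.Helper46.RO.SimRep

variable {G : Type*} [Group G] {X : Type*}
variable {Γ₀ : Type*} [LinearOrderedCommGroupWithZero Γ₀]
variable {N : Subgroup G} (R : SimRep N X Γ₀)

theorem conj_mem_aux [hN : N.Normal] {a : G} (ha : a ∈ N) (h : G) : h⁻¹ * a * h ∈ N := by
  have := hN.conj_mem a ha h⁻¹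
  rwa [inv_inv] at this

variable [hN : N.Normal]

omit hN in
theorem μ_pow {a : G} (ha : a ∈ N) (k : ℕ) : R.μ (a ^ k) = R.μ a ^ k := by
  induction k with
  | zero => rw [pow_zero, pow_zero, R.μ_one]
  | succ k ih => rw [pow_succ, pow_succ, R.μ_mul _ (N.pow_mem ha k) _ ha, ih]

omit hN in
theorem μ_zpow {a : G} (ha : a ∈ N) (k : ℤ) : R.μ (a ^ k) = R.μ a ^ k := by
  rcases Int.natAbs_eq k with h | h
  · rw [h, zpow_natCast, zpow_natCast, R.μ_pow ha]
  · rw [h, zpow_neg, zpow_neg, zpow_natCast, zpow_natCast, R.μ_inv (N.pow_mem ha _), R.μ_pow ha]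

omit hN in
theorem fix_pow {a : G} (ha : a ∈ N) {z : X} (h : R.act a z = z) (k : ℕ) :
    R.act (a ^ k) z = z := by
  induction k with
  | zero => rw [pow_zero, R.act_one]
  | succ k ih => rw [pow_succ]; exact R.fix_mul (N.pow_mem ha k) ha ih h

omit hN in
theorem fix_zpow {a : G} (ha : a ∈ N) {z : X} (h : R.act a z = z) (k : ℤ) :
    R.act (a ^ k) z = z := by
  rcases Int.natAbs_eq k with h1 | h1
  · rw [h1, zpow_natCast]; exact R.fix_pow ha h _
  · rw [h1, zpow_neg, zpow_natCast]; exact R.fix_inv (N.pow_mem ha _) (R.fix_pow ha h _)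

/-- Moving the place by an element of `N` fixing `o`. -/
theorem at'_mul_fix_iff {u n z : G} (hn : n ∈ N) (hz : z ∈ N) {o : X}
    (ho : R.act n o = o) : (R.at' (u * n)).act z o = o ↔ (R.at' u).act z o = o := by
  have hzu : u⁻¹ * z * u ∈ N := conj_mem_aux hz u
  have e : (R.at' (u * n)).act z o = R.act n⁻¹ (R.act (u⁻¹ * z * u) (R.act n o)) := by
    rw [← R.act_mul hzu hn, ← R.act_mul (N.inv_mem hn) (N.mul_mem hzu hn), at'_act]
    congr 1
    group
  rw [e, ho, at'_act]
  constructor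
  · intro h
    have h1 := congrArg (R.act n) h
    rw [R.act_act_inv hn, ho] at h1
    exact h1
  · intro h
    rw [h]
    exact R.fix_inv hn ho

omit hN in
theorem dist_pos {x y : X} (h : x ≠ y) : R.dist x y ≠ 0 := fun h0 => h ((R.dist_eq_zero x y).1 h0)

omit hN in
/-- The isosceles property. -/
theorem dist_other {o o' z : X} (hz : R.dist z o < R.dist o o') :
    R.dist z o' = R.dist o o' := by
  apply le_antisymm
  · refine (R.dist_ultra z o o').trans ?_
    rw [max_eq_right hz.le]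
  · have h1 := R.dist_ultra o z o'
    rw [R.dist_comm o z] at h1
    rcases le_max_iff.1 h1 with h2 | h2
    · exact absurd h2 (not_le.2 hz)
    · exact h2

omit hN in
theorem dist_act_fix {a : G} (ha : a ∈ N) {o : X} (ho : R.act a o = o) (z : X) :
    R.dist (R.act a z) o = R.μ a * R.dist z o := by
  have h := R.dist_act a ha z o
  rwa [ho] at h

end Pool.Agent.Helper46.RO.SimRep

namespace Pool.Agent.Helper5.RO

open Pool.Agent.Helper11.Gap
open Pool.Agent.Helper46.RO (SimRep)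
open Pointwise
open scoped commutatorElement

variable {G : Type*} [Group G] {X : Type*}
variable {Γ₀ : Type*} [LinearOrderedCommGroupWithZero Γ₀]


section

variable {N : Subgroup G} (R : SimRep N X Γ₀) {o o' : X} (hoo : o ≠ o')

include hoo

theorem pair_ball {a b : G} (ha : a ∈ N) (hb : b ∈ N) (hao : R.act a o = o)
    (hav : R.μ a < 1) (hbo : R.act b o' = o') (hbv : R.μ b < 1) {z : X}
    (hz : R.dist z o < R.dist o o') :
    R.dist (R.act b z) o' = R.μ b * R.dist o o' ∧
    R.dist (R.act (a * b) z) o = R.μ a * R.dist o o' ∧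
      R.dist (R.act (a * b) z) o < R.dist o o' := by
  have hr : R.dist o o' ≠ 0 := R.dist_pos hoo
  have h1 : R.dist (R.act b z) o' = R.μ b * R.dist o o' := by
    rw [R.dist_act_fix hb hbo, R.dist_other hz]
  have h2 : R.dist (R.act b z) o' < R.dist o' o := by
    rw [h1, R.dist_comm o' o]
    exact mul_lt_self hbv hr
  have h3 : R.dist (R.act b z) o = R.dist o o' := by
    rw [R.dist_other h2, R.dist_comm]
  have h4 : R.dist (R.act (a * b) z) o = R.μ a * R.dist o o' := by
    rw [R.act_mul ha hb, R.dist_act_fix ha hao, h3]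
  exact ⟨h1, h4, h4 ▸ mul_lt_self hav hr⟩

end

theorem caseTwo {N : Subgroup G} {ι A B : Type*} (I : Set ι) (R : ι → SimRep N X Γ₀)
    (o o' : ι → X)
    (hoo : ∀ i ∈ I, o i ≠ o' i) (U : A → G) (U' : B → G) (hU : ∀ a, U a ∈ N) (hU' : ∀ b, U' b ∈ N)
    (E : Set A) (E' : Set B)
    (h1 : ∀ i ∈ I, ∀ a ∈ E, (R i).act (U a) (o i) = o i ∧ (R i).μ (U a) < 1)
    (h2 : ∀ i ∈ I, ∀ b ∈ E', (R i).act (U' b) (o' i) = o' i ∧ (R i).μ (U' b) < 1)
    (h3 : ∀ a ∈ E, ∀ a' ∈ E, a ≠ a' → ∃ i ∈ I, (R i).μ (U a) ≠ (R i).μ (U a'))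
    (h4 : ∀ b ∈ E', ∀ b' ∈ E', b ≠ b' → ∃ i ∈ I, (R i).μ (U' b) ≠ (R i).μ (U' b'))
    (L L' : List (A × B)) (hL : ∀ p ∈ L, p.1 ∈ E ∧ p.2 ∈ E') (hL' : ∀ p ∈ L', p.1 ∈ E ∧ p.2 ∈ E')
    (hlen : L.length = L'.length)
    (heq : (L.map (fun p => U p.1 * U' p.2)).prod = (L'.map (fun p => U p.1 * U' p.2)).prod) :
    L = L' := by
  have hprodN : ∀ L : List (A × B), (L.map (fun p => U p.1 * U' p.2)).prod ∈ N := by
    intro L
    apply Subgroup.list_prod_mem
    intro x hx
    rw [List.mem_map] at hx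
    obtain ⟨p, _, rfl⟩ := hx
    exact N.mul_mem (hU _) (hU' _)
  have hball : ∀ i ∈ I, ∀ L : List (A × B), (∀ p ∈ L, p.1 ∈ E ∧ p.2 ∈ E') →
      (R i).dist ((R i).act (L.map (fun p => U p.1 * U' p.2)).prod (o i)) (o i) <
        (R i).dist (o i) (o' i) := by
    intro i hi L
    induction L with
    | nil =>
      intro _
      simp only [List.map_nil, List.prod_nil, (R i).act_one]
      rw [((R i).dist_eq_zero (o i) (o i)).2 rfl]
      exact zero_lt_iff.2 ((R i).dist_pos (hoo i hi))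
    | cons p L ih =>
      intro hp
      have hpm := hp p (by simp)
      have ih' := ih (fun q hq => hp q (by simp [hq]))
      rw [List.map_cons, List.prod_cons, (R i).act_mul (N.mul_mem (hU _) (hU' _)) (hprodN L)]
      exact (pair_ball (R i) (hoo i hi) (hU p.1) (hU' p.2) (h1 i hi _ hpm.1).1
        (h1 i hi _ hpm.1).2 (h2 i hi _ hpm.2).1 (h2 i hi _ hpm.2).2 ih').2.2
  induction L generalizing L' with
  | nil =>
    cases L' with
    | nil => rfl
    | cons b L' => simp at hlen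
  | cons p L ih =>
    cases L' with
    | nil => simp at hlen
    | cons q L' =>
      have hp := hL p (by simp)
      have hq := hL' q (by simp)
      have hLt : ∀ p ∈ L, p.1 ∈ E ∧ p.2 ∈ E' := fun r hr => hL r (by simp [hr])
      have hLt' : ∀ p ∈ L', p.1 ∈ E ∧ p.2 ∈ E' := fun r hr => hL' r (by simp [hr])
      rw [List.map_cons, List.map_cons, List.prod_cons, List.prod_cons] at heq
      set g := (L.map (fun p => U p.1 * U' p.2)).prod with hg
      set g' := (L'.map (fun p => U p.1 * U' p.2)).prod with hg'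
      have hgN : g ∈ N := hprodN L
      have hgN' : g' ∈ N := hprodN L'
      have e1 : p.1 = q.1 := by
        by_contra hne
        obtain ⟨i, hi, hv⟩ := h3 _ hp.1 _ hq.1 hne
        have b1 := (pair_ball (R i) (hoo i hi) (hU p.1) (hU' p.2) (h1 i hi _ hp.1).1
          (h1 i hi _ hp.1).2 (h2 i hi _ hp.2).1 (h2 i hi _ hp.2).2 (hball i hi L hLt)).2.1
        have b2 := (pair_ball (R i) (hoo i hi) (hU q.1) (hU' q.2) (h1 i hi _ hq.1).1
          (h1 i hi _ hq.1).2 (h2 i hi _ hq.2).1 (h2 i hi _ hq.2).2 (hball i hi L' hLt')).2.1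
        rw [← (R i).act_mul (N.mul_mem (hU _) (hU' _)) hgN] at b1
        rw [← (R i).act_mul (N.mul_mem (hU _) (hU' _)) hgN', ← heq, b1] at b2
        have hr : (R i).dist (o i) (o' i) ≠ 0 := (R i).dist_pos (hoo i hi)
        exact hv (mul_right_cancel₀ hr b2)
      have heq2 : U' p.2 * g = U' q.2 * g' := by
        rw [e1, mul_assoc, mul_assoc] at heq
        exact mul_left_cancel heq
      have e2 : p.2 = q.2 := by
        by_contra hne
        obtain ⟨i, hi, hv⟩ := h4 _ hp.2 _ hq.2 hne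
        have b1 := (pair_ball (R i) (hoo i hi) (hU p.1) (hU' p.2) (h1 i hi _ hp.1).1
          (h1 i hi _ hp.1).2 (h2 i hi _ hp.2).1 (h2 i hi _ hp.2).2 (hball i hi L hLt)).1
        have b2 := (pair_ball (R i) (hoo i hi) (hU q.1) (hU' q.2) (h1 i hi _ hq.1).1
          (h1 i hi _ hq.1).2 (h2 i hi _ hq.2).1 (h2 i hi _ hq.2).2 (hball i hi L' hLt')).1
        rw [← (R i).act_mul (hU' _) hgN] at b1
        rw [← (R i).act_mul (hU' _) hgN', ← heq2, b1] at b2
        have hr : (R i).dist (o i) (o' i) ≠ 0 := (R i).dist_pos (hoo i hi)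
        exact hv (mul_right_cancel₀ hr b2)
      have heq3 : g = g' := by
        rw [e2] at heq2
        exact mul_left_cancel heq2
      rw [Prod.ext e1 e2, ih L' hLt hLt' (by simpa using hlen) heq3]

/-- `x` is hyperbolic at `h`. -/
def Hyp (R : SimRep (commutator G) X Γ₀) (h x : G) : Prop :=
  (R.at' h).μ x ≠ 1

section dist

variable [DecidableEq G]

/-- Within distance `< d` of a hyperbolic position all commutators of letters fix its center. -/
def FixProp (T : Finset G) (R : SimRep (commutator G) X Γ₀) (d : ℕ) : Prop :=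
  ∀ h x y g : G, ∀ m : ℕ, IsX T x → IsX T y → Hyp R h x → g ∈ T ^ m → m < d →
    (R.at' (g * h)).act y ((R.at' h).ctr x) = (R.at' h).ctr x

/-- Two hyperbolic positions at distance `< e` have the same center. -/
def HypProp (T : Finset G) (R : SimRep (commutator G) X Γ₀) (e : ℕ) : Prop :=
  ∀ h x y g : G, ∀ m : ℕ, IsX T x → IsX T y → Hyp R h x → Hyp R (g * h) y → g ∈ T ^ m →
    m < e → (R.at' (g * h)).ctr y = (R.at' h).ctr x

theorem exists_min (T : Finset G) (hT : Sym T) (hgen : Subgroup.closure (T : Set G) = ⊤)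
    (R : SimRep (commutator G) X Γ₀)
    (H1 : ∃ n ∈ commutator G, R.μ n ≠ 1)
    (H2 : ∀ z : X, ∃ n ∈ commutator G, R.act n z ≠ z) :
    ∃ d : ℕ, FixProp T R d ∧ ∃ h x y g : G, IsX T x ∧ IsX T y ∧ Hyp R h x ∧ g ∈ T ^ d ∧
      (R.at' (g * h)).act y ((R.at' h).ctr x) ≠ (R.at' h).ctr x := by
  classical
  -- a hyperbolic position
  have hhyp : ∃ h x, IsX T x ∧ Hyp R h x := by
    by_contra hcon
    push Not at hcon
    obtain ⟨n, hn, hvn⟩ := H1
    let P : Subgroup G :=
      { carrier := {n | n ∈ commutator G ∧ R.μ n = 1}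
        one_mem' := ⟨Subgroup.one_mem _, R.μ_one⟩
        mul_mem' := by
          rintro a b ⟨ha, ha'⟩ ⟨hb, hb'⟩
          exact ⟨Subgroup.mul_mem _ ha hb, by rw [R.μ_mul a ha b hb, ha', hb', one_mul]⟩
        inv_mem' := by
          rintro a ⟨ha, ha'⟩
          exact ⟨Subgroup.inv_mem _ ha, by rw [R.μ_inv ha, ha', inv_one]⟩ }
    have hle := commutator_le_of_conj hgen P (by
      intro k x hx
      have h1 := hcon k x hx
      rw [Hyp, not_not, SimRep.at'_μ] at h1
      exact ⟨conj_mem' hx.mem k, h1⟩)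
    exact hvn (hle hn).2
  obtain ⟨h₀, x₀, hx₀, hh₀⟩ := hhyp
  -- somebody moves the center
  have hex : ∃ d : ℕ, ∃ h x y g : G, IsX T x ∧ IsX T y ∧ Hyp R h x ∧ g ∈ T ^ d ∧
      (R.at' (g * h)).act y ((R.at' h).ctr x) ≠ (R.at' h).ctr x := by
    by_contra hcon
    push Not at hcon
    set o := (R.at' h₀).ctr x₀ with ho
    obtain ⟨n, hn, hmove⟩ := H2 o
    let P : Subgroup G :=
      { carrier := {n | n ∈ commutator G ∧ R.act n o = o}
        one_mem' := ⟨Subgroup.one_mem _, R.act_one o⟩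
        mul_mem' := by
          rintro a b ⟨ha, ha'⟩ ⟨hb, hb'⟩
          exact ⟨Subgroup.mul_mem _ ha hb, R.fix_mul ha hb ha' hb'⟩
        inv_mem' := by
          rintro a ⟨ha, ha'⟩
          exact ⟨Subgroup.inv_mem _ ha, R.fix_inv ha ha'⟩ }
    have hle := commutator_le_of_conj hgen P (by
      intro k y hy
      obtain ⟨m, hm⟩ := hT.exists_mem_pow_of_mem_closure (g := k * h₀⁻¹)
        (by rw [hgen]; exact Subgroup.mem_top _)
      have h1 := hcon m h₀ x₀ y (k * h₀⁻¹) hx₀ hy hh₀ hm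
      rw [inv_mul_cancel_right, SimRep.at'_act] at h1
      exact ⟨conj_mem' hy.mem k, h1⟩)
    exact hmove (hle hn).2
  refine ⟨Nat.find hex, ?_, Nat.find_spec hex⟩
  intro h x y g m hx hy hh hg hm
  by_contra hne
  exact Nat.find_min hex hm ⟨h, x, y, g, hx, hy, hh, hg, hne⟩

end dist

end Pool.Agent.Helper5.RO
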