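import Pool.Agent.Helper5.RO.Goals
import Pool.Agent.Helper29.BL.Asm

/-!
# Project RO: the goal `TOR`
-/

namespace Pool.Agent.Helper5.RO

open Pool.Agent.Helper29.BL

theorem gTOR : G_TOR := by
  intro K _ _ _ W _
  classical
  obtain ⟨H, c₀, hH⟩ := th_can K W
  obtain ⟨-, h2⟩ := th_nor K W
  obtain ⟨hfin, htor, htor'⟩ := h2 H c₀ hH
  set T : Finset W.Point := (hfin 0).toFinset with hT
  have hpos : ∀ P ∈ T, 0 < addOrderOf P := by
    intro P hP
    rw [hT, Set.Finite.mem_toFinset] at hP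
    have h0 : H P = 0 := le_antisymm hP (hH.1.1 P)
    obtain ⟨k, hk, hkP⟩ := htor P h0
    exact addOrderOf_pos_iff.2 (isOfFinAddOrder_iff_nsmul_eq_zero.2 ⟨k, hk, hkP⟩)
  refine ⟨∏ P ∈ T, addOrderOf P, Finset.prod_pos hpos, fun P k hk hkP => ?_⟩
  have hPT : P ∈ T := by
    rw [hT, Set.Finite.mem_toFinset]
    exact (htor' P k hk hkP).le
  obtain ⟨m, hm⟩ := Finset.dvd_prod_of_mem addOrderOf hPT
  rw [hm, mul_comm, mul_nsmul', addOrderOf_nsmul_eq_zero, nsmul_zero]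

end Pool.Agent.Helper5.RO
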